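import Mathlib

/-!
# Size estimates for small norm elements in the cubic orders `ℤ[λ]`, `λ³ - aλ² + bλ - 1 = 0`

Helper lemmas for MP_44891f_nt.  Throughout `ρ > 0` is the real root, `z = α + iβ` the
non-real root, `T = |z|`, so `ρ T² = 1`, and `T` is large.
-/

namespace Pool.Agent.H90.NRSCore

theorem int_eq_zero_of_abs_lt {s : ℤ} (h : |(s : ℝ)| < 1) : s = 0 := by
  have : |s| < 1 := by exact_mod_cast h
  exact Int.abs_lt_one_iff.1 this

/-- A bound for `|q|` from a bound for `|q - s ρ|`. -/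
theorem q_bound {q s ρ C : ℝ} (hρ : 0 < ρ) (h : |q - s * ρ| ≤ C) : |q| ≤ |s| * ρ + C := by
  have e : q = (q - s * ρ) + s * ρ := by ring
  calc |q| = |(q - s * ρ) + s * ρ| := by rw [← e]
    _ ≤ |q - s * ρ| + |s * ρ| := abs_add_le _ _
    _ ≤ C + |s| * ρ := by
      rw [abs_mul, abs_of_pos hρ]; linarith
    _ = _ := by ring

/-- The basic estimate forcing `s = 0`. -/
theorem s_bound {T ρ α y1 e q s C E : ℝ} (hρ0 : 0 < ρ) (hρT : ρ * T ≤ 1 / 4) (hT : 1 ≤ T)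
    (hα : |α| ≤ T) (hkey : s * (T ^ 2 - ρ * α) = y1 - e - q * (ρ - α))
    (hq : |q| ≤ |s| * ρ + C) (hC : 0 ≤ C) (hE : |y1| + |e| ≤ E) :
    |s| * (T ^ 2 - 2) ≤ E + 2 * C * T := by
  have hρ1 : ρ ≤ 1 / 4 := by nlinarith
  have hs0 := abs_nonneg s
  have hρα : |ρ * α| ≤ 1 / 4 := by
    rw [abs_mul, abs_of_pos hρ0]
    exact (mul_le_mul_of_nonneg_left hα hρ0.le).trans hρT
  have hB : |y1 - e - q * (ρ - α)| ≤ E + |q| * (ρ + T) := by
    calc |y1 - e - q * (ρ - α)| ≤ |y1 - e| + |q * (ρ - α)| := abs_sub _ _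
      _ ≤ (|y1| + |e|) + |q| * |ρ - α| := by
        rw [abs_mul]
        linarith [abs_sub y1 e]
      _ ≤ _ := by
        have : |ρ - α| ≤ ρ + T := by
          calc |ρ - α| ≤ |ρ| + |α| := abs_sub _ _
            _ ≤ _ := by rw [abs_of_pos hρ0]; linarith
        have h' := mul_le_mul_of_nonneg_left this (abs_nonneg q)
        linarith
  have hA : |s| * (T ^ 2 - 1) ≤ |s * (T ^ 2 - ρ * α)| := by
    rw [abs_mul]
    apply mul_le_mul_of_nonneg_left _ (abs_nonneg _)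
    calc T ^ 2 - 1 ≤ T ^ 2 - ρ * α := by linarith [le_abs_self (ρ * α)]
      _ ≤ _ := le_abs_self _
  rw [hkey] at hA
  have h1 : |q| * (ρ + T) ≤ (|s| * ρ + C) * (ρ + T) :=
    mul_le_mul_of_nonneg_right hq (by linarith)
  have h2 : |s| * (ρ * (ρ + T)) ≤ |s| * 1 := by
    apply mul_le_mul_of_nonneg_left _ hs0
    have : ρ * ρ ≤ 1 / 4 * (1 / 4) := mul_le_mul hρ1 hρ1 hρ0.le (by norm_num)
    linarith [mul_add ρ ρ T]
  have h3 : C * (ρ + T) ≤ C * (2 * T) := by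
    apply mul_le_mul_of_nonneg_left _ hC
    linarith
  linarith [add_mul (|s| * ρ) C (ρ + T), mul_assoc |s| ρ (ρ + T), hA.trans hB]

/-- The generic case: `β` is bounded below. -/
theorem generic_case {D T ρ α β y1 e f : ℝ} {p q s : ℤ} (hD : 1 ≤ D) (hT : 300 * D ^ 3 ≤ T)
    (hρ : ρ * T ^ 2 = 1) (hαβ : α ^ 2 + β ^ 2 = T ^ 2) (hβ : 1 / 8 ≤ β ^ 2)
    (hy1 : y1 = p + q * ρ + s * T ^ 2) (he : e = p + q * α + s * (ρ * α))
    (hf : f = β * (q - s * ρ)) (h2 : e ^ 2 + f ^ 2 ≤ D ^ 2 * T) (h1 : |y1| ≤ D * T)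
    (h3 : |y1| * (e ^ 2 + f ^ 2) < D ^ 3) : q = 0 ∧ s = 0 := by
  have hD3 : 1 ≤ D ^ 3 := one_le_pow₀ hD
  have hD2 : 1 ≤ D ^ 2 := one_le_pow₀ hD
  have hD23 : D ^ 2 ≤ D ^ 3 := pow_le_pow_right₀ hD (by norm_num)
  have hT1 : 300 ≤ T := by linarith
  obtain ⟨u, hu0, huT⟩ : ∃ u : ℝ, 0 < u ∧ u ^ 2 = T :=
    ⟨Real.sqrt T, Real.sqrt_pos.2 (by linarith), Real.sq_sqrt (by linarith)⟩
  have hu17 : 17 * D ≤ u := by
    have : (17 * D) ^ 2 ≤ u ^ 2 := by
      rw [huT]; linarith [mul_pow 17 D 2]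
    exact le_of_sq_le_sq this hu0.le
  have hu : 17 ≤ u := by linarith
  have hρ0 : 0 < ρ := by
    by_contra h
    push Not at h
    have : ρ * T ^ 2 ≤ 0 := mul_nonpos_of_nonpos_of_nonneg h (by positivity)
    linarith
  have hρT : ρ * T ≤ 1 / 300 := by
    have h : (ρ * T) * T = 1 := by rw [← hρ]; ring
    have hpos : 0 < ρ * T := by positivity
    have : (ρ * T) * 300 ≤ (ρ * T) * T := mul_le_mul_of_nonneg_left hT1 hpos.le
    linarith
  have hρ1 : ρ ≤ 1 / 300 := by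
    have : ρ * 1 ≤ ρ * T := mul_le_mul_of_nonneg_left (by linarith) hρ0.le
    linarith
  have hαu : |α| ≤ T := by
    apply abs_le_of_sq_le_sq _ (by linarith)
    linarith [sq_nonneg β]
  have hDu : (D * u) ^ 2 = D ^ 2 * T := by rw [mul_pow, huT]
  have he2 : |e| ≤ D * u := by
    apply abs_le_of_sq_le_sq _ (by positivity)
    linarith [sq_nonneg f]
  have hf2 : f ^ 2 ≤ (D * u) ^ 2 := by
    linarith [sq_nonneg e]
  -- step 1
  have hqs : |(q : ℝ) - s * ρ| ≤ 3 * D * u := by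
    apply abs_le_of_sq_le_sq _ (by positivity)
    have h : β ^ 2 * ((q : ℝ) - s * ρ) ^ 2 ≤ (D * u) ^ 2 := by
      rw [hf] at hf2
      linarith [hf2, mul_pow β ((q : ℝ) - s * ρ) 2]
    have h' : 1 / 8 * ((q : ℝ) - s * ρ) ^ 2 ≤ β ^ 2 * ((q : ℝ) - s * ρ) ^ 2 :=
      mul_le_mul_of_nonneg_right hβ (sq_nonneg _)
    have h'' : (3 * D * u) ^ 2 = 9 * (D * u) ^ 2 := by ring
    linarith [sq_nonneg (D * u)]
  have hq : |(q : ℝ)| ≤ |(s : ℝ)| * ρ + 3 * D * u := q_bound hρ0 hqs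
  -- step 2
  have hs : s = 0 := by
    have key : (s : ℝ) * (T ^ 2 - ρ * α) = y1 - e - q * (ρ - α) := by
      rw [hy1, he]; ring
    have hb := s_bound hρ0 (by linarith) (by linarith) hαu key hq (by positivity)
      (add_le_add h1 he2)
    apply int_eq_zero_of_abs_lt
    by_contra hcon
    push Not at hcon
    have hu3 : 0 < u ^ 3 := by positivity
    have h6 : (1 : ℝ) ≤ u ^ 3 := one_le_pow₀ (by linarith)
    have h5 : u ^ 3 * (17 * D) ≤ u ^ 3 * u := mul_le_mul_of_nonneg_left hu17 hu3.le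
    have h6' : u ^ 3 * 1 ≤ u ^ 3 * D := mul_le_mul_of_nonneg_left hD hu3.le
    have hT2 : T ^ 2 = u ^ 3 * u := by rw [← huT]; ring
    have hpos : 0 ≤ T ^ 2 - 2 := by rw [hT2]; linarith
    have : 1 * (T ^ 2 - 2) ≤ |(s : ℝ)| * (T ^ 2 - 2) := mul_le_mul_of_nonneg_right hcon hpos
    have h7 : D * T + D * u + 2 * (3 * D * u) * T ≤ 8 * (u ^ 3 * D) := by
      have : D * T + D * u + 2 * (3 * D * u) * T = D * (u ^ 2 + u + 6 * u ^ 3) := by
        rw [← huT]; ring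
      rw [this]
      have h8 : u ^ 2 + u + 6 * u ^ 3 ≤ 8 * u ^ 3 := by
        have h9 : u ^ 2 ≤ u ^ 3 := pow_le_pow_right₀ (by linarith) (by norm_num)
        have h10 : u ≤ u ^ 3 := by
          calc u = u ^ 1 := (pow_one u).symm
            _ ≤ u ^ 3 := pow_le_pow_right₀ (by linarith) (by norm_num)
        linarith
      calc D * (u ^ 2 + u + 6 * u ^ 3) ≤ D * (8 * u ^ 3) :=
            mul_le_mul_of_nonneg_left h8 (by linarith)
        _ = _ := by ring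
    linarith
  subst hs
  refine ⟨?_, rfl⟩
  by_contra hq0
  have hq1 : (1 : ℝ) ≤ |(q : ℝ)| := by
    have : (1 : ℤ) ≤ |q| := Int.one_le_abs hq0
    exact_mod_cast this
  have hy1' : y1 = e - q * (α - ρ) := by rw [hy1, he]; push_cast; ring
  have hfq : f = β * q := by rw [hf]; push_cast; ring
  have hq2 : (1 : ℝ) ≤ (q : ℝ) ^ 2 := by
    rw [← sq_abs]; exact one_le_pow₀ hq1
  have hf3 : β ^ 2 ≤ f ^ 2 := by
    rw [hfq, mul_pow]
    have := mul_le_mul_of_nonneg_left hq2 (sq_nonneg β)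
    linarith
  have hDuT : D * u ≤ T / 17 := by
    rw [← huT]
    have : 17 * D * u ≤ u * u := mul_le_mul_of_nonneg_right hu17 hu0.le
    linarith [sq u]
  rcases le_or_gt (T / 2) |α| with hα | hα
  · have hy1l : T / 4 ≤ |y1| := by
      have h1 : |(q : ℝ) * (α - ρ)| ≤ |y1| + |e| := by
        have : (q : ℝ) * (α - ρ) = e - y1 := by rw [hy1']; ring
        rw [this]
        linarith [abs_sub e y1]
      have h2' : |α| - ρ ≤ |α - ρ| := by
        have := abs_sub_abs_le_abs_sub α ρ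
        rwa [abs_of_pos hρ0] at this
      have h3' : 1 * |α - ρ| ≤ |(q : ℝ)| * |α - ρ| :=
        mul_le_mul_of_nonneg_right hq1 (abs_nonneg _)
      rw [abs_mul] at h1
      linarith
    have h4 : T / 4 * (1 / 8) ≤ |y1| * (e ^ 2 + f ^ 2) := by
      apply mul_le_mul hy1l _ (by norm_num) (abs_nonneg _)
      linarith [sq_nonneg e]
    linarith
  · have hβ' : 3 / 4 * T ^ 2 ≤ β ^ 2 := by
      have : α ^ 2 ≤ (T / 2) ^ 2 := by
        rw [← sq_abs]
        exact pow_le_pow_left₀ (abs_nonneg _) hα.le 2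
      linarith [div_pow T 2 2]
    have h5 : 3 / 4 * T ^ 2 ≤ D ^ 2 * T := by linarith [sq_nonneg e]
    have h6 : D ^ 2 * T ≤ T / 300 * T :=
      mul_le_mul_of_nonneg_right (by linarith) (by linarith)
    have h7 : 0 < T ^ 2 := by positivity
    linarith [sq T]

/-- The special family `x (x + c)² = 1`. -/
theorem special_case {D T ρ α β y1 e f : ℝ} {p q s : ℤ} (hD : 1 ≤ D) (hT : 10000 * D ^ 4 ≤ T)
    (hρ : ρ * T ^ 2 = 1) (hαβ : α ^ 2 + β ^ 2 = T ^ 2) (hβ : 1 ≤ 2 * T * β ^ 2)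
    (hc : α = -T + ρ / 2)
    (hy1 : y1 = p + q * ρ + s * T ^ 2) (he : e = p + q * α + s * (ρ * α))
    (hf : f = β * (q - s * ρ)) (h2 : (e ^ 2 + f ^ 2) ^ 2 ≤ D ^ 4 * T) (h1 : y1 ^ 2 ≤ D ^ 2 * T) :
    q = 0 ∧ s = 0 := by
  have hD4 : 1 ≤ D ^ 4 := one_le_pow₀ hD
  have hT1 : 10000 ≤ T := by linarith
  obtain ⟨v, hv0, hvT⟩ : ∃ v : ℝ, 0 < v ∧ v ^ 4 = T := by
    refine ⟨Real.sqrt (Real.sqrt T), Real.sqrt_pos.2 (Real.sqrt_pos.2 (by linarith)), ?_⟩
    have : Real.sqrt (Real.sqrt T) ^ 4 = (Real.sqrt (Real.sqrt T) ^ 2) ^ 2 := by ring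
    rw [this, Real.sq_sqrt (Real.sqrt_nonneg _), Real.sq_sqrt (by linarith)]
  have hv10 : 10 * D ≤ v := by
    have : (10 * D) ^ 4 ≤ v ^ 4 := by
      rw [hvT]; linarith [mul_pow 10 D 4]
    exact le_of_pow_le_pow_left₀ (by norm_num) hv0.le this
  have hv : 10 ≤ v := by linarith
  have hρ0 : 0 < ρ := by
    by_contra h
    push Not at h
    have : ρ * T ^ 2 ≤ 0 := mul_nonpos_of_nonpos_of_nonneg h (by positivity)
    linarith
  have hρT : ρ * T ≤ 1 / 10000 := by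
    have h : (ρ * T) * T = 1 := by rw [← hρ]; ring
    have hpos : 0 < ρ * T := by positivity
    have : (ρ * T) * 10000 ≤ (ρ * T) * T := mul_le_mul_of_nonneg_left hT1 hpos.le
    linarith
  have hαT : |α| ≤ T := by
    apply abs_le_of_sq_le_sq _ (by linarith)
    linarith [sq_nonneg β]
  have hy1v : |y1| ≤ D * v ^ 2 := by
    apply abs_le_of_sq_le_sq _ (by positivity)
    calc y1 ^ 2 ≤ D ^ 2 * T := h1
      _ = (D * v ^ 2) ^ 2 := by rw [← hvT]; ring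
  have hef : e ^ 2 + f ^ 2 ≤ (D * v) ^ 2 := by
    have h : (e ^ 2 + f ^ 2) ^ 2 ≤ ((D * v) ^ 2) ^ 2 := by
      calc (e ^ 2 + f ^ 2) ^ 2 ≤ D ^ 4 * T := h2
        _ = _ := by rw [← hvT]; ring
    exact le_of_sq_le_sq h (by positivity)
  have he2 : |e| ≤ D * v := by
    apply abs_le_of_sq_le_sq _ (by positivity)
    linarith [sq_nonneg f]
  have hf2 : f ^ 2 ≤ (D * v) ^ 2 := by
    linarith [sq_nonneg e]
  have hqs : |(q : ℝ) - s * ρ| ≤ 2 * D * v ^ 3 := by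
    apply abs_le_of_sq_le_sq _ (by positivity)
    have h : β ^ 2 * ((q : ℝ) - s * ρ) ^ 2 ≤ (D * v) ^ 2 := by
      rw [hf] at hf2
      linarith [hf2, mul_pow β ((q : ℝ) - s * ρ) 2]
    have h' : (2 * T) * (β ^ 2 * ((q : ℝ) - s * ρ) ^ 2) ≤ (2 * T) * (D * v) ^ 2 :=
      mul_le_mul_of_nonneg_left h (by linarith)
    have h'' : 1 * ((q : ℝ) - s * ρ) ^ 2 ≤ (2 * T * β ^ 2) * ((q : ℝ) - s * ρ) ^ 2 :=
      mul_le_mul_of_nonneg_right hβ (sq_nonneg _)
    have h3 : (2 * T) * (D * v) ^ 2 ≤ (2 * D * v ^ 3) ^ 2 := by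
      have e1 : (2 * T) * (D * v) ^ 2 = 2 * (D * v ^ 3) ^ 2 := by rw [← hvT]; ring
      have e2 : (2 * D * v ^ 3) ^ 2 = 4 * (D * v ^ 3) ^ 2 := by ring
      rw [e1, e2]
      linarith [sq_nonneg (D * v ^ 3)]
    linarith
  have hq : |(q : ℝ)| ≤ |(s : ℝ)| * ρ + 2 * D * v ^ 3 := q_bound hρ0 hqs
  have hs : s = 0 := by
    have key : (s : ℝ) * (T ^ 2 - ρ * α) = y1 - e - q * (ρ - α) := by
      rw [hy1, he]; ring
    have hb := s_bound hρ0 (by linarith) (by linarith) hαT key hq (by positivity)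
      (add_le_add hy1v he2)
    apply int_eq_zero_of_abs_lt
    by_contra hcon
    push Not at hcon
    have hu3 : 0 < v ^ 7 := by positivity
    have h6 : (1 : ℝ) ≤ v ^ 7 := one_le_pow₀ (by linarith)
    have h5 : v ^ 7 * (10 * D) ≤ v ^ 7 * v := mul_le_mul_of_nonneg_left hv10 hu3.le
    have h6' : v ^ 7 * 1 ≤ v ^ 7 * D := mul_le_mul_of_nonneg_left hD hu3.le
    have hT2 : T ^ 2 = v ^ 7 * v := by rw [← hvT]; ring
    have hpos : 0 ≤ T ^ 2 - 2 := by rw [hT2]; linarith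
    have : 1 * (T ^ 2 - 2) ≤ |(s : ℝ)| * (T ^ 2 - 2) := mul_le_mul_of_nonneg_right hcon hpos
    have h7 : D * v ^ 2 + D * v + 2 * (2 * D * v ^ 3) * T ≤ 6 * (v ^ 7 * D) := by
      have : D * v ^ 2 + D * v + 2 * (2 * D * v ^ 3) * T = D * (v ^ 2 + v + 4 * v ^ 7) := by
        rw [← hvT]; ring
      rw [this]
      have h8 : v ^ 2 + v + 4 * v ^ 7 ≤ 6 * v ^ 7 := by
        have h9 : v ^ 2 ≤ v ^ 7 := pow_le_pow_right₀ (by linarith) (by norm_num)
        have h10 : v ≤ v ^ 7 := by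
          calc v = v ^ 1 := (pow_one v).symm
            _ ≤ v ^ 7 := pow_le_pow_right₀ (by linarith) (by norm_num)
        linarith
      calc D * (v ^ 2 + v + 4 * v ^ 7) ≤ D * (6 * v ^ 7) :=
            mul_le_mul_of_nonneg_left h8 (by linarith)
        _ = _ := by ring
    linarith
  subst hs
  refine ⟨?_, rfl⟩
  have key : (q : ℝ) * (ρ - α) = y1 - e := by rw [hy1, he]; push_cast; ring
  have h1' : |(q : ℝ)| * T ≤ D * v ^ 2 + D * v := by
    calc |(q : ℝ)| * T ≤ |(q : ℝ)| * |ρ - α| := by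
          apply mul_le_mul_of_nonneg_left _ (abs_nonneg _)
          have : T ≤ ρ - α := by rw [hc]; linarith
          exact this.trans (le_abs_self _)
      _ = |y1 - e| := by rw [← abs_mul, key]
      _ ≤ |y1| + |e| := abs_sub _ _
      _ ≤ _ := by linarith
  apply int_eq_zero_of_abs_lt
  by_contra hcon
  push Not at hcon
  have h2' : 1 * T ≤ |(q : ℝ)| * T := mul_le_mul_of_nonneg_right hcon (by linarith)
  have hT2 : T = v ^ 2 * v ^ 2 := by rw [← hvT]; ring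
  have h3 : D * v ^ 2 + D * v ≤ v ^ 2 * (2 * D) := by
    have h4 : D * v ≤ D * v ^ 2 := by
      apply mul_le_mul_of_nonneg_left _ (by linarith)
      calc v = v ^ 1 := (pow_one v).symm
        _ ≤ v ^ 2 := pow_le_pow_right₀ (by linarith) (by norm_num)
    linarith
  have h5 : v ^ 2 * (2 * D) < v ^ 2 * v ^ 2 := by
    apply mul_lt_mul_of_pos_left _ (by positivity)
    have : v ≤ v ^ 2 := by
      calc v = v ^ 1 := (pow_one v).symm
        _ ≤ v ^ 2 := pow_le_pow_right₀ (by linarith) (by norm_num)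
    linarith
  linarith

/-- Moving a point into a fundamental domain. -/
theorem scale {S : Type*} (f1 : S → ℝ) (f2 : S → ℂ) (up dn : S → S) {κ : ℝ} (hκ : 1 < κ)
    (hup : ∀ x, ‖f2 (up x)‖ ^ 2 = κ * ‖f2 x‖ ^ 2)
    (hdn : ∀ x, ‖f2 (dn x)‖ ^ 2 = κ⁻¹ * ‖f2 x‖ ^ 2)
    (nup : ∀ x, |f1 (up x)| * ‖f2 (up x)‖ ^ 2 = |f1 x| * ‖f2 x‖ ^ 2)
    (ndn : ∀ x, |f1 (dn x)| * ‖f2 (dn x)‖ ^ 2 = |f1 x| * ‖f2 x‖ ^ 2)
    {L : ℝ} (hL : 0 < L) (x : S) (hx : f2 x ≠ 0) :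
    ∃ y, L ≤ ‖f2 y‖ ^ 2 ∧ ‖f2 y‖ ^ 2 < κ * L ∧
      |f1 y| * ‖f2 y‖ ^ 2 = |f1 x| * ‖f2 x‖ ^ 2 := by
  have hκ0 : 0 < κ := by linarith
  have hup' : ∀ (n : ℕ) x, ‖f2 (up^[n] x)‖ ^ 2 = κ ^ n * ‖f2 x‖ ^ 2 := by
    intro n
    induction n with
    | zero => intro x; simp
    | succ n ih =>
      intro x
      rw [Function.iterate_succ_apply', hup, ih]
      ring
  have hdn' : ∀ (n : ℕ) x, ‖f2 (dn^[n] x)‖ ^ 2 = (κ ^ n)⁻¹ * ‖f2 x‖ ^ 2 := by
    intro n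
    induction n with
    | zero => intro x; simp
    | succ n ih =>
      intro x
      rw [Function.iterate_succ_apply', hdn, ih, pow_succ κ n, mul_inv]
      ring
  have nup' : ∀ (n : ℕ) x, |f1 (up^[n] x)| * ‖f2 (up^[n] x)‖ ^ 2 = |f1 x| * ‖f2 x‖ ^ 2 := by
    intro n
    induction n with
    | zero => intro x; simp
    | succ n ih =>
      intro x
      rw [Function.iterate_succ_apply', nup, ih]
  have ndn' : ∀ (n : ℕ) x, |f1 (dn^[n] x)| * ‖f2 (dn^[n] x)‖ ^ 2 = |f1 x| * ‖f2 x‖ ^ 2 := by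
    intro n
    induction n with
    | zero => intro x; simp
    | succ n ih =>
      intro x
      rw [Function.iterate_succ_apply', ndn, ih]
  have hX : 0 < ‖f2 x‖ ^ 2 / L := by
    have : 0 < ‖f2 x‖ := norm_pos_iff.2 hx
    positivity
  obtain ⟨n, hn1, hn2⟩ := exists_mem_Ico_zpow hX hκ
  have h1 : κ ^ n * L ≤ ‖f2 x‖ ^ 2 := (le_div_iff₀ hL).1 hn1
  have h2 : ‖f2 x‖ ^ 2 < κ ^ (n + 1) * L := (div_lt_iff₀ hL).1 hn2
  have hkn : 0 < κ ^ n := zpow_pos hκ0 n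
  have key : ∃ y, ‖f2 y‖ ^ 2 = (κ ^ n)⁻¹ * ‖f2 x‖ ^ 2 ∧
      |f1 y| * ‖f2 y‖ ^ 2 = |f1 x| * ‖f2 x‖ ^ 2 := by
    rcases le_or_gt 0 n with h | h
    · obtain ⟨m, rfl⟩ := Int.eq_ofNat_of_zero_le h
      refine ⟨dn^[m] x, ?_, ndn' m x⟩
      rw [hdn' m x]
      simp
    · obtain ⟨m, hm⟩ := Int.eq_ofNat_of_zero_le (show 0 ≤ -n by omega)
      refine ⟨up^[m] x, ?_, nup' m x⟩
      rw [hup' m x]
      have : n = -(m : ℤ) := by omega
      rw [this]
      simp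
  obtain ⟨y, hy1, hy2⟩ := key
  refine ⟨y, ?_, ?_, hy2⟩
  · rw [hy1]
    have : (κ ^ n)⁻¹ * (κ ^ n * L) ≤ (κ ^ n)⁻¹ * ‖f2 x‖ ^ 2 :=
      mul_le_mul_of_nonneg_left h1 (by positivity)
    rwa [inv_mul_cancel_left₀ hkn.ne'] at this
  · rw [hy1]
    have h3 : (κ ^ n)⁻¹ * ‖f2 x‖ ^ 2 < (κ ^ n)⁻¹ * (κ ^ (n + 1) * L) :=
      mul_lt_mul_of_pos_left h2 (by positivity)
    rw [zpow_add_one₀ hκ0.ne', mul_assoc, inv_mul_cancel_left₀ hkn.ne'] at h3
    exact h3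

/-- The core estimate: in the region where the real root `ρ` is small, every element `x` of the
module with nonzero norm has norm at least `D³`. -/
theorem core {D : ℝ} (hD : 1 ≤ D) {ρ : ℝ} {z : ℂ} {a b : ℤ} (hρz : ρ * ‖z‖ ^ 2 = 1)
    (hz : z.im ≠ 0) (ha : (a : ℝ) = ρ + 2 * z.re) (hb : (b : ℝ) = 2 * ρ * z.re + ‖z‖ ^ 2)
    (hT : 10000 * D ^ 4 ≤ ‖z‖) {S : Type*} (f1 : S → ℝ) (f2 : S → ℂ) (mul inv : S → S)
    (shift : ℤ → S → S)
    (hm1 : ∀ x, f1 (mul x) = ρ * f1 x) (hm2 : ∀ x, f2 (mul x) = z * f2 x)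
    (hi1 : ∀ x, f1 (inv x) = ρ⁻¹ * f1 x) (hi2 : ∀ x, f2 (inv x) = z⁻¹ * f2 x)
    (hs1 : ∀ c x, f1 (shift c x) = (ρ + c) * f1 x)
    (hs2 : ∀ c x, f2 (shift c x) = (z + c) * f2 x)
    (hc : ∀ x, ∃ p q s : ℤ, f1 x = p + q * ρ + s * ρ⁻¹ ∧ f2 x = p + q * z + s * z⁻¹ ∧
      (q = 0 → s = 0 → ∃ t : ℤ, f1 x = D * t ∧ f2 x = D * t))
    (x : S) (hx1 : f1 x ≠ 0) (hx2 : f2 x ≠ 0) : D ^ 3 ≤ |f1 x| * ‖f2 x‖ ^ 2 := by
  by_contra hlt
  push Not at hlt
  have hD4 : 1 ≤ D ^ 4 := one_le_pow₀ hD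
  have hD34 : D ^ 3 ≤ D ^ 4 := pow_le_pow_right₀ hD (by norm_num)
  set T : ℝ := ‖z‖ with hTdef
  have hT0 : 10000 ≤ T := by linarith
  have hTpos : 0 < T := by linarith
  have hρ0 : 0 < ρ := by
    by_contra h
    push Not at h
    have : ρ * T ^ 2 ≤ 0 := mul_nonpos_of_nonpos_of_nonneg h (by positivity)
    linarith
  have hρinv : ρ⁻¹ = T ^ 2 := by
    rw [inv_eq_iff_eq_inv]
    exact eq_inv_of_mul_eq_one_left hρz
  have hρT : ρ * T ≤ 1 / 10000 := by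
    have h : (ρ * T) * T = 1 := by rw [← hρz]; ring
    have hpos : 0 < ρ * T := by positivity
    have : (ρ * T) * 10000 ≤ (ρ * T) * T := mul_le_mul_of_nonneg_left hT0 hpos.le
    linarith
  have hρ1 : ρ ≤ 1 / 10000 := by
    have : ρ * 1 ≤ ρ * T := mul_le_mul_of_nonneg_left (by linarith) hρ0.le
    linarith
  have hz0 : z ≠ 0 := by
    intro h
    apply hz
    rw [h]
    rfl
  set α : ℝ := z.re with hα
  set β : ℝ := z.im with hβ
  have hαβ : α ^ 2 + β ^ 2 = T ^ 2 := by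
    rw [hTdef, ← Complex.normSq_eq_norm_sq, Complex.normSq_apply]
    ring
  have hαT : |α| ≤ T := by
    apply abs_le_of_sq_le_sq _ (by linarith)
    linarith [sq_nonneg β]
  have hραT : |ρ * α| ≤ 1 / 10000 := by
    rw [abs_mul, abs_of_pos hρ0]
    exact (mul_le_mul_of_nonneg_left hαT hρ0.le).trans hρT
  -- 4β² = N + ρ² - 4ρα
  have hN : 4 * β ^ 2 = ((4 * b - a ^ 2 : ℤ) : ℝ) + ρ ^ 2 - 4 * (ρ * α) := by
    push_cast
    rw [ha, hb, ← hαβ]
    ring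
  have hρ2 : ρ ^ 2 ≤ 1 / 10000 := by
    have : ρ * ρ ≤ 1 / 10000 * 1 := mul_le_mul hρ1 (by linarith) hρ0.le (by norm_num)
    linarith [sq ρ]
  have hβ2 : 0 < β ^ 2 := by positivity
  -- coordinates of f1, f2
  have hinvz : z⁻¹ = (ρ : ℂ) * (starRingEnd ℂ) z := by
    rw [Complex.inv_def, mul_comm]
    congr 1
    rw [Complex.normSq_eq_norm_sq, ← hTdef]
    rw [← eq_inv_of_mul_eq_one_left hρz]
  have hre : ∀ (y : S) (p q s : ℤ), f2 y = p + q * z + s * z⁻¹ →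
      ‖f2 y‖ ^ 2 = ((p : ℝ) + q * α + s * (ρ * α)) ^ 2 + (β * (q - s * ρ)) ^ 2 := by
    intro y p q s h
    rw [← Complex.normSq_eq_norm_sq, Complex.normSq_apply, h, hinvz]
    simp only [Complex.add_re, Complex.add_im, Complex.mul_re, Complex.mul_im, Complex.intCast_re,
      Complex.intCast_im, Complex.ofReal_re, Complex.ofReal_im, Complex.conj_re, Complex.conj_im,
      ← hα, ← hβ]
    ring
  have hfin : ∀ y : S, |f1 y| * ‖f2 y‖ ^ 2 = |f1 x| * ‖f2 x‖ ^ 2 →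
      (∃ t : ℤ, f1 y = D * t ∧ f2 y = D * t) → False := by
    rintro y hy ⟨t, ht1, ht2⟩
    rw [ht1, ht2] at hy
    have e1 : ‖(D : ℂ) * (t : ℂ)‖ = D * |(t : ℝ)| := by
      rw [norm_mul, Complex.norm_real, Complex.norm_intCast, Real.norm_of_nonneg (by linarith)]
    rw [e1, abs_mul, abs_of_pos (by linarith : (0 : ℝ) < D)] at hy
    have e2 : D * |(t : ℝ)| * (D * |(t : ℝ)|) ^ 2 = D ^ 3 * |(t : ℝ)| ^ 3 := by ring
    rw [e2] at hy
    have hpos : 0 < |f1 x| * ‖f2 x‖ ^ 2 := by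
      have h1 : 0 < ‖f2 x‖ := norm_pos_iff.2 hx2
      have h2 : 0 < |f1 x| := abs_pos.2 hx1
      positivity
    have ht : t ≠ 0 := by
      rintro rfl
      simp at hy
      rcases hy with h | h
      · exact hx1 h
      · exact hx2 h
    have ht' : (1 : ℝ) ≤ |(t : ℝ)| := by
      have : (1 : ℤ) ≤ |t| := Int.one_le_abs ht
      exact_mod_cast this
    have ht3 : (1 : ℝ) ≤ |(t : ℝ)| ^ 3 := one_le_pow₀ ht'
    have hD3 : 0 < D ^ 3 := by positivity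
    have : D ^ 3 * 1 ≤ D ^ 3 * |(t : ℝ)| ^ 3 := mul_le_mul_of_nonneg_left ht3 hD3.le
    linarith
  have hT2 : 1 < T ^ 2 := by
    have : 10000 * 10000 ≤ T * T := mul_le_mul hT0 hT0 (by norm_num) hTpos.le
    linarith [sq T]
  have habsρ : |ρ| = ρ := abs_of_pos hρ0
  rcases lt_trichotomy (4 * b - a ^ 2 : ℤ) 0 with h | h | h
  · have h' : ((4 * b - a ^ 2 : ℤ) : ℝ) ≤ -1 := by
      have : (4 * b - a ^ 2 : ℤ) ≤ -1 := by omega
      exact_mod_cast this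
    have := neg_le_of_abs_le hραT
    linarith
  · -- special family
    have hN0 : 4 * β ^ 2 = ρ ^ 2 - 4 * (ρ * α) := by
      rw [hN, h]
      push_cast
      ring
    obtain ⟨c, hac⟩ : ∃ c : ℤ, a = -2 * c := by
      have h2 : 2 ∣ a := by
        have : (2 : ℤ) ∣ a ^ 2 := ⟨2 * b, by linarith⟩
        exact Int.prime_two.dvd_of_dvd_pow this
      obtain ⟨k, hk⟩ := h2
      exact ⟨-k, by linarith⟩
    have hbc : b = c ^ 2 := by
      rw [hac] at h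
      have : 4 * b = 4 * c ^ 2 := by linarith [h, mul_pow (-2) c 2]
      linarith
    have hα' : α = -c - ρ / 2 := by
      rw [hac] at ha
      push_cast at ha
      linarith
    have hcT : ρ * (ρ + c) ^ 2 = 1 := by
      have e1 : (b : ℝ) = (c : ℝ) ^ 2 := by exact_mod_cast hbc
      rw [e1, hα', ] at hb
      have e2 : T ^ 2 = (ρ + c) ^ 2 := by
        linarith
      rw [← e2]
      exact hρz
    have hcsq : (ρ + c) ^ 2 = T ^ 2 := by
      have h1 : ρ * (ρ + c) ^ 2 = ρ * T ^ 2 := by rw [hcT, hρz]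
      exact mul_left_cancel₀ hρ0.ne' h1
    have hcpos : 0 ≤ ρ + c := by
      have h1 : 0 < ρ ^ 2 - 4 * (ρ * α) := by rw [← hN0]; linarith
      rw [hα'] at h1
      have h2 : 0 < ρ * (3 * ρ + 4 * c) := by linarith
      have h3 : 0 < 3 * ρ + 4 * c := by
        by_contra hcon
        push Not at hcon
        have := mul_nonpos_of_nonneg_of_nonpos hρ0.le hcon
        linarith
      have h4 : (-1 : ℝ) < c := by linarith
      have h5 : (-1 : ℤ) < c := by exact_mod_cast h4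
      have h6 : (0 : ℤ) ≤ c := by omega
      have h7 : (0 : ℝ) ≤ c := by exact_mod_cast h6
      linarith
    have hcT1 : ρ + c = T := by
      rw [← abs_of_nonneg hcpos, ← abs_of_pos hTpos]
      exact (sq_eq_sq_iff_abs_eq_abs _ _).1 hcsq
    have hα'' : α = -T + ρ / 2 := by linarith
    have hβT : 1 ≤ 2 * T * β ^ 2 := by
      have e1 : 2 * T * β ^ 2 = (T / 2) * (4 * β ^ 2) := by ring
      rw [e1, hN0, hα'']
      have e2 : T / 2 * (ρ ^ 2 - 4 * (ρ * (-T + ρ / 2))) = 2 * (ρ * T ^ 2) - (ρ * T) * ρ / 2 := by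
        ring
      rw [e2, hρz]
      have : (ρ * T) * ρ ≤ 1 / 10000 * 1 := mul_le_mul hρT (by linarith) hρ0.le (by norm_num)
      linarith
    have hη2 : ‖z + c‖ ^ 2 = T⁻¹ := by
      rw [← Complex.normSq_eq_norm_sq, Complex.normSq_apply]
      simp only [Complex.add_re, Complex.add_im, Complex.intCast_re, Complex.intCast_im, ← hα,
        ← hβ, add_zero]
      have e1 : (α + c) * (α + c) + β * β = ρ ^ 2 / 4 + β ^ 2 := by
        have : α + c = - (ρ / 2) := by linarith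
        rw [this]; ring
      rw [e1]
      have e2 : ρ ^ 2 / 4 + β ^ 2 = ρ * T := by
        rw [hα''] at hN0
        linarith
      rw [e2]
      field_simp
      exact hρz
    obtain ⟨u, hu0, huT⟩ : ∃ u : ℝ, 0 < u ∧ u ^ 2 = T :=
      ⟨Real.sqrt T, Real.sqrt_pos.2 (by linarith), Real.sq_sqrt (by linarith)⟩
    have hL : 0 < D ^ 2 / u := by positivity
    obtain ⟨y, hy1, hy2, hy3⟩ := scale f1 f2 (fun x => mul (shift c x)) (shift c)
      (κ := T) (by linarith)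
      (fun x => by
        rw [hm2, hs2, norm_mul, norm_mul, mul_pow, mul_pow, hη2]
        rw [← hTdef]
        field_simp)
      (fun x => by rw [hs2, norm_mul, mul_pow, hη2])
      (fun x => by
        rw [hm2, hs2, norm_mul, norm_mul, mul_pow, mul_pow, hη2, hm1, hs1, abs_mul, abs_mul,
          habsρ, hcT1, abs_of_pos hTpos, ← hTdef]
        have : ρ * (T * |f1 x|) * (T ^ 2 * (T⁻¹ * ‖f2 x‖ ^ 2)) =
            (ρ * T ^ 2) * (|f1 x| * ‖f2 x‖ ^ 2) := by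
          field_simp
        rw [this, hρz, one_mul])
      (fun x => by
        rw [hs2, norm_mul, mul_pow, hη2, hs1, abs_mul, hcT1, abs_of_pos hTpos]
        field_simp)
      hL x hx2
    obtain ⟨p, q, s, h1, h2, h3⟩ := hc y
    have hnorm := hre y p q s h2
    rw [hρinv] at h1
    have hy2' : ‖f2 y‖ ^ 2 ≤ D ^ 2 * u := by
      have : T * (D ^ 2 / u) = D ^ 2 * u := by rw [← huT]; field_simp
      linarith
    have hf1 : |f1 y| ≤ D * u := by
      have h4 : |f1 y| * (D ^ 2 / u) ≤ D ^ 3 := by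
        calc |f1 y| * (D ^ 2 / u) ≤ |f1 y| * ‖f2 y‖ ^ 2 :=
              mul_le_mul_of_nonneg_left hy1 (abs_nonneg _)
          _ ≤ D ^ 3 := by rw [hy3]; exact hlt.le
      have h5 : |f1 y| * (D ^ 2 / u) = (|f1 y| / u) * D ^ 2 := by ring
      rw [h5] at h4
      have h6 : (|f1 y| / u) * D ^ 2 ≤ D * D ^ 2 := by
        calc _ ≤ D ^ 3 := h4
          _ = _ := by ring
      have h7 : |f1 y| / u ≤ D := le_of_mul_le_mul_right h6 (by positivity)
      exact (div_le_iff₀ hu0).1 h7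
    obtain ⟨hq, hs⟩ := special_case hD hT hρz hαβ hβT hα'' h1 rfl rfl
      (by
        rw [← hnorm]
        calc (‖f2 y‖ ^ 2) ^ 2 ≤ (D ^ 2 * u) ^ 2 :=
              pow_le_pow_left₀ (by positivity) hy2' 2
          _ = D ^ 4 * T := by rw [← huT]; ring)
      (by
        rw [← sq_abs]
        calc |f1 y| ^ 2 ≤ (D * u) ^ 2 := pow_le_pow_left₀ (abs_nonneg _) hf1 2
          _ = D ^ 2 * T := by rw [← huT]; ring)
    exact hfin y hy3 (h3 hq hs)
  · -- generic case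
    have h' : (1 : ℝ) ≤ ((4 * b - a ^ 2 : ℤ) : ℝ) := by
      have : (1 : ℤ) ≤ (4 * b - a ^ 2 : ℤ) := by omega
      exact_mod_cast this
    have hβ8 : 1 / 8 ≤ β ^ 2 := by
      have h5 := le_of_abs_le hραT
      have h6 := sq_nonneg ρ
      linarith
    have hL : 0 < D ^ 2 / T := by positivity
    obtain ⟨y, hy1, hy2, hy3⟩ := scale f1 f2 mul inv (κ := T ^ 2) hT2
      (fun x => by rw [hm2, norm_mul, mul_pow, ← hTdef])
      (fun x => by rw [hi2, norm_mul, mul_pow, norm_inv, ← hTdef, inv_pow])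
      (fun x => by
        rw [hm2, hm1, norm_mul, mul_pow, ← hTdef, abs_mul, habsρ]
        have : ρ * |f1 x| * (T ^ 2 * ‖f2 x‖ ^ 2) = (ρ * T ^ 2) * (|f1 x| * ‖f2 x‖ ^ 2) := by ring
        rw [this, hρz, one_mul])
      (fun x => by
        rw [hi2, hi1, norm_mul, mul_pow, norm_inv, ← hTdef, inv_pow, abs_mul, abs_inv, habsρ,
          hρinv]
        field_simp)
      hL x hx2
    obtain ⟨p, q, s, h1, h2, h3⟩ := hc y
    have hnorm := hre y p q s h2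
    rw [hρinv] at h1
    have hy2' : ‖f2 y‖ ^ 2 ≤ D ^ 2 * T := by
      have : T ^ 2 * (D ^ 2 / T) = D ^ 2 * T := by field_simp
      linarith
    have hf1 : |f1 y| ≤ D * T := by
      have h4 : |f1 y| * (D ^ 2 / T) ≤ D ^ 3 := by
        calc |f1 y| * (D ^ 2 / T) ≤ |f1 y| * ‖f2 y‖ ^ 2 :=
              mul_le_mul_of_nonneg_left hy1 (abs_nonneg _)
          _ ≤ D ^ 3 := by rw [hy3]; exact hlt.le
      have h5 : |f1 y| * (D ^ 2 / T) = (|f1 y| / T) * D ^ 2 := by ring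
      rw [h5] at h4
      have h6 : (|f1 y| / T) * D ^ 2 ≤ D * D ^ 2 := by
        calc _ ≤ D ^ 3 := h4
          _ = _ := by ring
      have h7 : |f1 y| / T ≤ D := le_of_mul_le_mul_right h6 (by positivity)
      exact (div_le_iff₀ hTpos).1 h7
    obtain ⟨hq, hs⟩ := generic_case hD (by linarith) hρz hαβ hβ8 h1 rfl rfl
      (by rw [← hnorm]; exact hy2') hf1 (by rw [← hnorm, hy3]; exact hlt)
    exact hfin y hy3 (h3 hq hs)

end Pool.Agent.H90.NRSCore
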