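import Mathlib

/-!
# Linear families `x₁ + x₂ B + x₃ C` with complex coefficients contain singular elements

`𝔸` is a complete normed algebra over `ℝ` with a continuous trace functional `tr`,
`tr 1 ≠ 0`, and `J ∈ 𝔸` satisfies `J² = -1`.  We show that for all `B, C ∈ 𝔸` some nonzero
combination `(a + bJ) + (c + dJ) B + (e + fJ) C` is not invertible.
The proof is a Stokes argument: the closed 3-form `tr ((E⁻¹ dE)³)`.
-/

set_option linter.unusedSimpArgs false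
set_option linter.unusedSectionVars false

open MeasureTheory Set

namespace Pool.Agent.H90.Pencil

section algebra

variable {𝔸 : Type*} [Ring 𝔸] [Algebra ℝ 𝔸] (tr : 𝔸 →ₗ[ℝ] ℝ) (htr : ∀ x y, tr (x * y) = tr (y * x))

include htr in
/-- The divergence identity. -/
theorem div_identity (R J Y Z W : 𝔸) :
    (-2) * tr ((-(R * R)) * Z * R * J * R * Y + R * Z * (-(R * R)) * J * R * Y
        + R * Z * R * J * (-(R * R)) * Y)
    + 2 * tr ((-(R * J * R)) * Z * R * R * Y + R * Z * (-(R * J * R)) * R * Y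
        + R * Z * R * (-(R * J * R)) * Y)
    + (-1) * tr (((-(R * Y * R)) * R * J * R + R * (-(R * Y * R)) * J * R
        + R * R * J * (-(R * Y * R)) - (-(R * Y * R)) * J * R * R - R * J * (-(R * Y * R)) * R
        - R * J * R * (-(R * Y * R))) * Z + (R * R * J * R - R * J * R * R) * (-W))
    + tr (((-(R * Z * R)) * R * J * R + R * (-(R * Z * R)) * J * R
        + R * R * J * (-(R * Z * R)) - (-(R * Z * R)) * J * R * R - R * J * (-(R * Z * R)) * R
        - R * J * R * (-(R * Z * R))) * Y + (R * R * J * R - R * J * R * R) * (-W)) = 0 := by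
  have h1 := htr (R * Y) (R * R * J * R * Z)
  have h2 := htr (R * R * J * R * Y) (R * Z)
  have h3 := htr (R * Y) (R * J * R * R * Z)
  have h4 := htr (R * J * R * R * Y) (R * Z)
  have h5 := htr (R * R * Y) (R * J * R * Z)
  have h6 := htr (R * J * R * Y) (R * R * Z)
  simp only [mul_add, add_mul, mul_sub, sub_mul, mul_neg, neg_mul, neg_neg, map_add, map_sub,
    map_neg, mul_assoc] at h1 h2 h3 h4 h5 h6 ⊢
  linarith

include htr in
theorem face_identity (R J P E : 𝔸) (a b : ℝ) (hJ : J * J = -1)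
    (hER : E * R = 1) (hE : E = a • (1 : 𝔸) + b • J + P) :
    tr ((R * R * J * R - R * J * R * R) * (J * P)) = tr (R * R) + tr (R * J * R * J) := by
  have hP : P = E - a • (1 : 𝔸) - b • J := by rw [hE]; abel
  have hJP : J * P = J * E - a • J + b • (1 : 𝔸) := by
    rw [hP, mul_sub, mul_sub, mul_smul_comm, mul_smul_comm, mul_one, hJ]
    simp only [smul_neg]
    abel
  have e1 : tr (R * R * J * R * (J * E)) = tr (R * J * R * J) := by
    have h := htr (R * R * J * R * J) E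
    have h' : E * (R * R * J * R * J) = R * J * R * J := by
      calc E * (R * R * J * R * J) = (E * R) * (R * J * R * J) := by simp only [mul_assoc]
        _ = _ := by rw [hER, one_mul]
    rw [h'] at h
    rw [← h]
    simp only [mul_assoc]
  have e2 : tr (R * J * R * R * (J * E)) = - tr (R * R) := by
    have h := htr (R * J * R * R * J) E
    have h' : E * (R * J * R * R * J) = J * (R * R * J) := by
      calc E * (R * J * R * R * J) = (E * R) * (J * (R * R * J)) := by simp only [mul_assoc]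
        _ = _ := by rw [hER, one_mul]
    rw [h', htr J, mul_assoc (R * R) J J, hJ] at h
    have h'' : R * J * R * R * (J * E) = R * J * R * R * J * E := by simp only [mul_assoc]
    rw [h'', h]
    simp
  have e3 : tr (R * R * J * R * J) = tr (R * J * R * R * J) := by
    have h := htr (R * R * J) (R * J)
    have h' : R * J * (R * R * J) = R * J * R * R * J := by simp only [mul_assoc]
    rw [h'] at h
    rw [← h]
    simp only [mul_assoc]
  have e4 : tr (R * R * J * R) = tr (R * J * R * R) := by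
    have h := htr R (R * J * R)
    have h' : R * (R * J * R) = R * R * J * R := by simp only [mul_assoc]
    rw [h'] at h
    exact h
  rw [hJP]
  simp only [sub_mul, mul_add, mul_sub, mul_smul_comm, mul_one, map_add, map_sub, map_smul,
    smul_eq_mul]
  rw [e1, e2, e3, e4]
  ring

end algebra

section analysis

variable {𝔸 : Type*} [NormedRing 𝔸] [NormedAlgebra ℝ 𝔸]

/-- The linear family of all combinations. -/
def E6 (J B C : 𝔸) (y : Fin 6 → ℝ) : 𝔸 :=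
  (y 0 • 1 + y 1 • J) + (y 2 • 1 + y 3 • J) * B + (y 4 • 1 + y 5 • J) * C

theorem E6_smul (J B C : 𝔸) (c : ℝ) (y : Fin 6 → ℝ) : E6 J B C (c • y) = c • E6 J B C y := by
  simp only [E6, Pi.smul_apply, smul_eq_mul, mul_smul, smul_add, add_mul, smul_mul_assoc]

theorem continuous_E6 (J B C : 𝔸) : Continuous (E6 J B C) := by
  unfold E6
  fun_prop

theorem inverse_smul {c : ℝ} (hc : c ≠ 0) {u : 𝔸} (hu : IsUnit u) :
    Ring.inverse (c • u) = c⁻¹ • Ring.inverse u := by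
  obtain ⟨v, rfl⟩ := hu
  have h1 : (c • (v : 𝔸)) * (c⁻¹ • ((v⁻¹ : 𝔸ˣ) : 𝔸)) = 1 := by
    rw [smul_mul_smul_comm, mul_inv_cancel₀ hc, Units.mul_inv, one_smul]
  have h2 : (c⁻¹ • ((v⁻¹ : 𝔸ˣ) : 𝔸)) * (c • (v : 𝔸)) = 1 := by
    rw [smul_mul_smul_comm, inv_mul_cancel₀ hc, Units.inv_mul, one_smul]
  let w : 𝔸ˣ := ⟨c • (v : 𝔸), c⁻¹ • ((v⁻¹ : 𝔸ˣ) : 𝔸), h1, h2⟩
  have hw : (w : 𝔸) = c • (v : 𝔸) := rfl
  rw [← hw, Ring.inverse_unit, Ring.inverse_unit]
  rfl

theorem inv_bound [CompleteSpace 𝔸] {J B C : 𝔸} (hunit : ∀ y, y ≠ 0 → IsUnit (E6 J B C y)) :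
    ∃ K : ℝ, 0 < K ∧ ∀ y, y ≠ 0 → ‖Ring.inverse (E6 J B C y)‖ ≤ K / ‖y‖ := by
  have hcont : ContinuousOn (fun y => Ring.inverse (E6 J B C y)) (Metric.sphere 0 1) := by
    intro y hy
    have hy0 : y ≠ 0 := by
      rintro rfl
      simp at hy
    obtain ⟨u, hu⟩ := hunit y hy0
    have h1 : ContinuousAt Ring.inverse (E6 J B C y) := by
      rw [← hu]
      exact NormedRing.inverse_continuousAt u
    exact (h1.comp (continuous_E6 J B C).continuousAt).continuousWithinAt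
  obtain ⟨K, hK⟩ := (isCompact_sphere (0 : Fin 6 → ℝ) 1).exists_bound_of_continuousOn hcont
  refine ⟨max K 1, by positivity, ?_⟩
  intro y hy
  have hn : 0 < ‖y‖ := norm_pos_iff.2 hy
  have hs : ‖y‖⁻¹ • y ∈ Metric.sphere (0 : Fin 6 → ℝ) 1 := by
    rw [mem_sphere_zero_iff_norm, norm_smul, norm_inv, norm_norm, inv_mul_cancel₀ hn.ne']
  have h0 : ‖y‖⁻¹ • y ≠ 0 := by
    intro h
    rw [h] at hs
    simp at hs
  have h1 : E6 J B C y = ‖y‖ • E6 J B C (‖y‖⁻¹ • y) := by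
    rw [← E6_smul, smul_smul, mul_inv_cancel₀ hn.ne', one_smul]
  rw [h1, inverse_smul hn.ne' (hunit _ h0), norm_smul, norm_inv, norm_norm, div_eq_inv_mul]
  apply mul_le_mul_of_nonneg_left _ (by positivity)
  exact (hK _ hs).trans (le_max_left _ _)

/-- The four-parameter subfamily. -/
noncomputable def par (x : Fin 4 → ℝ) : Fin 6 → ℝ :=
  ![x 0, x 1, (1 - x 3) * Real.cos (x 2), (1 - x 3) * Real.sin (x 2), x 3, 0]

theorem par_ne_zero (x : Fin 4 → ℝ) : par x ≠ 0 := by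
  intro h
  have h2 : (1 - x 3) * Real.cos (x 2) = 0 := congrFun h 2
  have h3 : (1 - x 3) * Real.sin (x 2) = 0 := congrFun h 3
  have h4 : x 3 = 0 := congrFun h 4
  rw [h4] at h2 h3
  have h5 := Real.sin_sq_add_cos_sq (x 2)
  have h6 : Real.cos (x 2) = 0 := by linarith
  have h7 : Real.sin (x 2) = 0 := by linarith
  rw [h6, h7] at h5
  norm_num at h5

/-- The family as a function on `ℝ⁴`. -/
noncomputable def Ef (J B C : 𝔸) (x : Fin 4 → ℝ) : 𝔸 := E6 J B C (par x)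

/-- The inverse family. -/
noncomputable def Rf (J B C : 𝔸) (x : Fin 4 → ℝ) : 𝔸 := Ring.inverse (Ef J B C x)

/-- `e^{Jθ} B` -/
noncomputable def Pf (J B : 𝔸) (t : ℝ) : 𝔸 := Real.cos t • B + Real.sin t • (J * B)

/-- its derivative -/
noncomputable def Wf (J B : 𝔸) (t : ℝ) : 𝔸 := -(Real.sin t) • B + Real.cos t • (J * B)

/-- `∂_θ E` -/
noncomputable def Yf (J B : 𝔸) (x : Fin 4 → ℝ) : 𝔸 := (1 - x 3) • Wf J B (x 2)

/-- `∂_s E` -/
noncomputable def Zf (J B C : 𝔸) (x : Fin 4 → ℝ) : 𝔸 := C - Pf J B (x 2)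

theorem Ef_eq (J B C : 𝔸) (x : Fin 4 → ℝ) :
    Ef J B C x = x 0 • (1 : 𝔸) + x 1 • J + (1 - x 3) • Pf J B (x 2) + x 3 • C := by
  simp only [Ef, E6, par, Pf]
  simp [add_mul, smul_mul_assoc, smul_smul, smul_add]

theorem hasDerivAt_Pf (J B : 𝔸) (t : ℝ) : HasDerivAt (Pf J B) (Wf J B t) t := by
  unfold Pf Wf
  exact ((Real.hasDerivAt_cos t).smul_const B).add ((Real.hasDerivAt_sin t).smul_const (J * B))

theorem hasDerivAt_Wf (J B : 𝔸) (t : ℝ) : HasDerivAt (Wf J B) (-Pf J B t) t := by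
  unfold Pf Wf
  have h0 : HasDerivAt (fun t => -(Real.sin t)) (-(Real.cos t)) t := (Real.hasDerivAt_sin t).fun_neg
  have h := (h0.smul_const B).add ((Real.hasDerivAt_cos t).smul_const (J * B))
  refine h.congr_deriv ?_
  rw [neg_add, neg_smul, neg_smul]

/-- Coordinate projection. -/
abbrev pr (i : Fin 4) : (Fin 4 → ℝ) →L[ℝ] ℝ := ContinuousLinearMap.proj i

theorem hasFDerivAt_comp2 {f : ℝ → 𝔸} {f' : 𝔸} {x : Fin 4 → ℝ} (h : HasDerivAt f f' (x 2)) :
    HasFDerivAt (fun x : Fin 4 → ℝ => f (x 2)) ((pr 2).smulRight f') x := by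
  have h2 : HasFDerivAt (fun x : Fin 4 → ℝ => x 2) (pr 2) x := hasFDerivAt_apply 2 x
  have h3 : HasFDerivAt f (ContinuousLinearMap.smulRight (1 : ℝ →L[ℝ] ℝ) f') (x 2) :=
    h.hasFDerivAt
  refine (h3.comp x h2).congr_fderiv ?_
  ext v
  simp

theorem hasFDerivAt_Pf (J B : 𝔸) (x : Fin 4 → ℝ) :
    HasFDerivAt (fun x : Fin 4 → ℝ => Pf J B (x 2)) ((pr 2).smulRight (Wf J B (x 2))) x :=
  hasFDerivAt_comp2 (hasDerivAt_Pf J B (x 2))

theorem hasFDerivAt_Wf (J B : 𝔸) (x : Fin 4 → ℝ) :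
    HasFDerivAt (fun x : Fin 4 → ℝ => Wf J B (x 2)) ((pr 2).smulRight (-Pf J B (x 2))) x :=
  hasFDerivAt_comp2 (hasDerivAt_Wf J B (x 2))

theorem hasFDerivAt_Ef (J B C : 𝔸) (x : Fin 4 → ℝ) :
    HasFDerivAt (Ef J B C) ((pr 0).smulRight (1 : 𝔸) + (pr 1).smulRight J +
      (pr 2).smulRight (Yf J B x) + (pr 3).smulRight (Zf J B C x)) x := by
  have e : Ef J B C = fun x => x 0 • (1 : 𝔸) + x 1 • J + (1 - x 3) • Pf J B (x 2) + x 3 • C :=
    funext (Ef_eq J B C)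
  rw [e]
  have h0 : HasFDerivAt (fun x : Fin 4 → ℝ => x 0) (pr 0) x := hasFDerivAt_apply 0 x
  have h1 : HasFDerivAt (fun x : Fin 4 → ℝ => x 1) (pr 1) x := hasFDerivAt_apply 1 x
  have h2 : HasFDerivAt (fun x : Fin 4 → ℝ => x 2) (pr 2) x := hasFDerivAt_apply 2 x
  have h3 : HasFDerivAt (fun x : Fin 4 → ℝ => x 3) (pr 3) x := hasFDerivAt_apply 3 x
  have hP := hasFDerivAt_Pf J B x
  have h := (((h0.smul_const (1 : 𝔸)).add (h1.smul_const J)).add
    ((h3.const_sub 1).smul hP)).add (h3.smul_const C)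
  refine h.congr_fderiv ?_
  ext v
  simp only [add_apply, ContinuousLinearMap.smulRight_apply, Yf, Zf,
    smul_apply, neg_apply, smul_sub, smul_smul, neg_smul]
  module

theorem hasFDerivAt_Yf (J B : 𝔸) (x : Fin 4 → ℝ) :
    HasFDerivAt (Yf J B) ((1 - x 3) • ((pr 2).smulRight (-Pf J B (x 2))) -
      (pr 3).smulRight (Wf J B (x 2))) x := by
  have h3 : HasFDerivAt (fun x : Fin 4 → ℝ => x 3) (pr 3) x := hasFDerivAt_apply 3 x
  have h := (h3.const_sub 1).smul (hasFDerivAt_Wf J B x)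
  refine h.congr_fderiv ?_
  ext v
  simp only [add_apply, sub_apply,
    ContinuousLinearMap.smulRight_apply,
    smul_apply, neg_apply]
  module

theorem hasFDerivAt_Zf (J B C : 𝔸) (x : Fin 4 → ℝ) :
    HasFDerivAt (Zf J B C) (-((pr 2).smulRight (Wf J B (x 2)))) x := by
  exact (hasFDerivAt_Pf J B x).const_sub C

variable [CompleteSpace 𝔸]

theorem isUnit_Ef {J B C : 𝔸} (hunit : ∀ y, y ≠ 0 → IsUnit (E6 J B C y)) (x : Fin 4 → ℝ) :
    IsUnit (Ef J B C x) := hunit _ (par_ne_zero x)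

theorem hasFDerivAt_Rf {J B C : 𝔸} (hunit : ∀ y, y ≠ 0 → IsUnit (E6 J B C y)) (x : Fin 4 → ℝ) :
    HasFDerivAt (Rf J B C)
      ((pr 0).smulRight (-(Rf J B C x * Rf J B C x)) +
       (pr 1).smulRight (-(Rf J B C x * J * Rf J B C x)) +
       (pr 2).smulRight (-(Rf J B C x * Yf J B x * Rf J B C x)) +
       (pr 3).smulRight (-(Rf J B C x * Zf J B C x * Rf J B C x))) x := by
  obtain ⟨u, hu⟩ := isUnit_Ef hunit x
  have h1 : HasFDerivAt Ring.inverse
      (-ContinuousLinearMap.mulLeftRight ℝ 𝔸 ↑u⁻¹ ↑u⁻¹) (Ef J B C x) := by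
    rw [← hu]
    exact hasFDerivAt_ringInverse u
  have h2 := h1.comp x (hasFDerivAt_Ef J B C x)
  have hR : Rf J B C x = ((u⁻¹ : 𝔸ˣ) : 𝔸) := by
    rw [Rf, ← hu, Ring.inverse_unit]
  refine HasFDerivAt.congr_fderiv h2 ?_
  ext v
  simp only [hR, ContinuousLinearMap.comp_apply, add_apply,
    ContinuousLinearMap.smulRight_apply, neg_apply,
    ContinuousLinearMap.mulLeftRight_apply, mul_add, add_mul, mul_smul_comm, smul_mul_assoc,
    mul_one, smul_neg, neg_add]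

/-- Components of the divergence free vector field. -/
noncomputable def V0 (tr : 𝔸 →L[ℝ] ℝ) (J B C : 𝔸) (x : Fin 4 → ℝ) : ℝ :=
  (-2) * tr (Rf J B C x * Zf J B C x * Rf J B C x * J * Rf J B C x * Yf J B x)

noncomputable def V1 (tr : 𝔸 →L[ℝ] ℝ) (J B C : 𝔸) (x : Fin 4 → ℝ) : ℝ :=
  2 * tr (Rf J B C x * Zf J B C x * Rf J B C x * Rf J B C x * Yf J B x)

noncomputable def Qf (J B C : 𝔸) (x : Fin 4 → ℝ) : 𝔸 :=
  Rf J B C x * Rf J B C x * J * Rf J B C x - Rf J B C x * J * Rf J B C x * Rf J B C x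

noncomputable def V2 (tr : 𝔸 →L[ℝ] ℝ) (J B C : 𝔸) (x : Fin 4 → ℝ) : ℝ :=
  (-1) * tr (Qf J B C x * Zf J B C x)

noncomputable def V3 (tr : 𝔸 →L[ℝ] ℝ) (J B C : 𝔸) (x : Fin 4 → ℝ) : ℝ :=
  tr (Qf J B C x * Yf J B x)

/-- unit vector -/
abbrev ev (i : Fin 4) : Fin 4 → ℝ := Pi.single i 1

theorem V0_deriv (tr : 𝔸 →L[ℝ] ℝ) {J B C : 𝔸} (hunit : ∀ y, y ≠ 0 → IsUnit (E6 J B C y))
    (x : Fin 4 → ℝ) : DifferentiableAt ℝ (V0 tr J B C) x ∧
    fderiv ℝ (V0 tr J B C) x (ev 0) =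
      (let R := Rf J B C x; let Z := Zf J B C x; let Y := Yf J B x;
      (-2) * tr ((-(R * R)) * Z * R * J * R * Y + R * Z * (-(R * R)) * J * R * Y
        + R * Z * R * J * (-(R * R)) * Y)) := by
  have hR := hasFDerivAt_Rf hunit x
  have hY := hasFDerivAt_Yf J B x
  have hZ := hasFDerivAt_Zf J B C x
  have hJ := hasFDerivAt_const (𝕜 := ℝ) J x
  have h := (tr.hasFDerivAt.comp x
    (((((hR.fun_mul' hZ).fun_mul' hR).fun_mul' hJ).fun_mul' hR).fun_mul' hY)).const_mul (-2)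
  have h' : HasFDerivAt (V0 tr J B C) _ x := h
  refine ⟨h'.differentiableAt, ?_⟩
  rw [h'.fderiv]
  have e0 : (Pi.single 0 1 : Fin 4 → ℝ) 0 = 1 := by simp
  have e1 : (Pi.single 0 1 : Fin 4 → ℝ) 1 = 0 := by simp
  have e2 : (Pi.single 0 1 : Fin 4 → ℝ) 2 = 0 := by simp
  have e3 : (Pi.single 0 1 : Fin 4 → ℝ) 3 = 0 := by simp
  simp only [add_apply, neg_apply, smul_apply, ContinuousLinearMap.comp_apply,
    ContinuousLinearMap.smulRight_apply, ContinuousLinearMap.proj_apply, sub_apply,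
    zero_apply, smul_eq_mul, MulOpposite.smul_eq_mul_unop,
    MulOpposite.unop_op, ev, e0, e1, e2, e3]
  congr 2
  simp only [zero_smul, one_smul, smul_zero, mul_zero, zero_mul, neg_zero, sub_zero, add_zero,
    zero_add, mul_add, add_mul, mul_neg, neg_mul, mul_assoc, neg_neg]
  abel

theorem V1_deriv (tr : 𝔸 →L[ℝ] ℝ) {J B C : 𝔸} (hunit : ∀ y, y ≠ 0 → IsUnit (E6 J B C y))
    (x : Fin 4 → ℝ) : DifferentiableAt ℝ (V1 tr J B C) x ∧
    fderiv ℝ (V1 tr J B C) x (ev 1) =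
      (let R := Rf J B C x; let Z := Zf J B C x; let Y := Yf J B x;
      2 * tr ((-(R * J * R)) * Z * R * R * Y + R * Z * (-(R * J * R)) * R * Y
        + R * Z * R * (-(R * J * R)) * Y)) := by
  have hR := hasFDerivAt_Rf hunit x
  have hY := hasFDerivAt_Yf J B x
  have hZ := hasFDerivAt_Zf J B C x
  have h := (tr.hasFDerivAt.comp x
    ((((hR.fun_mul' hZ).fun_mul' hR).fun_mul' hR).fun_mul' hY)).const_mul 2
  have h' : HasFDerivAt (V1 tr J B C) _ x := h
  refine ⟨h'.differentiableAt, ?_⟩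
  rw [h'.fderiv]
  have e0 : (Pi.single 1 1 : Fin 4 → ℝ) 0 = 0 := by simp
  have e1 : (Pi.single 1 1 : Fin 4 → ℝ) 1 = 1 := by simp
  have e2 : (Pi.single 1 1 : Fin 4 → ℝ) 2 = 0 := by simp
  have e3 : (Pi.single 1 1 : Fin 4 → ℝ) 3 = 0 := by simp
  simp only [add_apply, neg_apply, smul_apply, ContinuousLinearMap.comp_apply,
    ContinuousLinearMap.smulRight_apply, ContinuousLinearMap.proj_apply, sub_apply,
    smul_eq_mul, MulOpposite.smul_eq_mul_unop,
    MulOpposite.unop_op, ev, e0, e1, e2, e3]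
  congr 2
  simp only [zero_smul, one_smul, smul_zero, mul_zero, zero_mul, neg_zero, sub_zero, add_zero,
    zero_add, mul_add, add_mul, mul_neg, neg_mul, mul_assoc, neg_neg]
  abel

theorem V2_deriv (tr : 𝔸 →L[ℝ] ℝ) {J B C : 𝔸} (hunit : ∀ y, y ≠ 0 → IsUnit (E6 J B C y))
    (x : Fin 4 → ℝ) : DifferentiableAt ℝ (V2 tr J B C) x ∧
    fderiv ℝ (V2 tr J B C) x (ev 2) =
      (let R := Rf J B C x; let Z := Zf J B C x; let Y := Yf J B x; let W := Wf J B (x 2);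
      (-1) * tr (((-(R * Y * R)) * R * J * R + R * (-(R * Y * R)) * J * R
        + R * R * J * (-(R * Y * R)) - (-(R * Y * R)) * J * R * R - R * J * (-(R * Y * R)) * R
        - R * J * R * (-(R * Y * R))) * Z + (R * R * J * R - R * J * R * R) * (-W))) := by
  have hR := hasFDerivAt_Rf hunit x
  have hZ := hasFDerivAt_Zf J B C x
  have hJ := hasFDerivAt_const (𝕜 := ℝ) J x
  have h := (tr.hasFDerivAt.comp x
    (((((hR.fun_mul' hR).fun_mul' hJ).fun_mul' hR).fun_sub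
      (((hR.fun_mul' hJ).fun_mul' hR).fun_mul' hR)).fun_mul' hZ)).const_mul (-1)
  have h' : HasFDerivAt (V2 tr J B C) _ x := h
  refine ⟨h'.differentiableAt, ?_⟩
  rw [h'.fderiv]
  have e0 : (Pi.single 2 1 : Fin 4 → ℝ) 0 = 0 := by simp
  have e1 : (Pi.single 2 1 : Fin 4 → ℝ) 1 = 0 := by simp
  have e2 : (Pi.single 2 1 : Fin 4 → ℝ) 2 = 1 := by simp
  have e3 : (Pi.single 2 1 : Fin 4 → ℝ) 3 = 0 := by simp
  simp only [add_apply, neg_apply, smul_apply, ContinuousLinearMap.comp_apply,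
    ContinuousLinearMap.smulRight_apply, ContinuousLinearMap.proj_apply, sub_apply,
    zero_apply, smul_eq_mul, MulOpposite.smul_eq_mul_unop,
    MulOpposite.unop_op, ev, e0, e1, e2, e3]
  congr 2
  simp only [zero_smul, one_smul, smul_zero, mul_zero, zero_mul, neg_zero, sub_zero, add_zero,
    zero_add, mul_add, add_mul, mul_neg, neg_mul, mul_assoc, neg_neg, sub_mul, mul_sub]
  abel

theorem V3_deriv (tr : 𝔸 →L[ℝ] ℝ) {J B C : 𝔸} (hunit : ∀ y, y ≠ 0 → IsUnit (E6 J B C y))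
    (x : Fin 4 → ℝ) : DifferentiableAt ℝ (V3 tr J B C) x ∧
    fderiv ℝ (V3 tr J B C) x (ev 3) =
      (let R := Rf J B C x; let Z := Zf J B C x; let Y := Yf J B x; let W := Wf J B (x 2);
      tr (((-(R * Z * R)) * R * J * R + R * (-(R * Z * R)) * J * R
        + R * R * J * (-(R * Z * R)) - (-(R * Z * R)) * J * R * R - R * J * (-(R * Z * R)) * R
        - R * J * R * (-(R * Z * R))) * Y + (R * R * J * R - R * J * R * R) * (-W))) := by
  have hR := hasFDerivAt_Rf hunit x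
  have hY := hasFDerivAt_Yf J B x
  have hJ := hasFDerivAt_const (𝕜 := ℝ) J x
  have h := (tr.hasFDerivAt.comp x
    (((((hR.fun_mul' hR).fun_mul' hJ).fun_mul' hR).fun_sub
      (((hR.fun_mul' hJ).fun_mul' hR).fun_mul' hR)).fun_mul' hY))
  have h' : HasFDerivAt (V3 tr J B C) _ x := h
  refine ⟨h'.differentiableAt, ?_⟩
  rw [h'.fderiv]
  have e0 : (Pi.single 3 1 : Fin 4 → ℝ) 0 = 0 := by simp
  have e1 : (Pi.single 3 1 : Fin 4 → ℝ) 1 = 0 := by simp
  have e2 : (Pi.single 3 1 : Fin 4 → ℝ) 2 = 0 := by simp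
  have e3 : (Pi.single 3 1 : Fin 4 → ℝ) 3 = 1 := by simp
  simp only [add_apply, neg_apply, smul_apply, ContinuousLinearMap.comp_apply,
    ContinuousLinearMap.smulRight_apply, ContinuousLinearMap.proj_apply, sub_apply,
    zero_apply, smul_eq_mul, MulOpposite.smul_eq_mul_unop,
    MulOpposite.unop_op, ev, e0, e1, e2, e3]
  congr 1
  simp only [zero_smul, one_smul, smul_zero, mul_zero, zero_mul, neg_zero, sub_zero, add_zero,
    zero_add, mul_add, add_mul, mul_neg, neg_mul, mul_assoc, neg_neg, sub_mul, mul_sub]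
  abel

theorem continuous_Rf {J B C : 𝔸} (hunit : ∀ y, y ≠ 0 → IsUnit (E6 J B C y)) :
    Continuous (Rf J B C) :=
  continuous_iff_continuousAt.2 fun x => (hasFDerivAt_Rf hunit x).continuousAt

/-- Components as a family. -/
noncomputable def Vf (tr : 𝔸 →L[ℝ] ℝ) (J B C : 𝔸) : Fin 4 → (Fin 4 → ℝ) → ℝ :=
  ![V0 tr J B C, V1 tr J B C, V2 tr J B C, V3 tr J B C]

theorem Vf_diff (tr : 𝔸 →L[ℝ] ℝ) {J B C : 𝔸} (hunit : ∀ y, y ≠ 0 → IsUnit (E6 J B C y))
    (i : Fin 4) (x : Fin 4 → ℝ) : DifferentiableAt ℝ (Vf tr J B C i) x := by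
  fin_cases i
  · exact (V0_deriv tr hunit x).1
  · exact (V1_deriv tr hunit x).1
  · exact (V2_deriv tr hunit x).1
  · exact (V3_deriv tr hunit x).1

theorem Vf_div (tr : 𝔸 →L[ℝ] ℝ) (htr : ∀ x y, tr (x * y) = tr (y * x)) {J B C : 𝔸}
    (hunit : ∀ y, y ≠ 0 → IsUnit (E6 J B C y)) (x : Fin 4 → ℝ) :
    ∑ i, fderiv ℝ (Vf tr J B C i) x (Pi.single i 1) = 0 := by
  rw [Fin.sum_univ_four]
  have h := div_identity (tr : 𝔸 →ₗ[ℝ] ℝ) htr (Rf J B C x) J (Yf J B x) (Zf J B C x) (Wf J B (x 2))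
  have h0 := (V0_deriv tr hunit x).2
  have h1 := (V1_deriv tr hunit x).2
  have h2 := (V2_deriv tr hunit x).2
  have h3 := (V3_deriv tr hunit x).2
  have e0 : Vf tr J B C 0 = V0 tr J B C := rfl
  have e1 : Vf tr J B C 1 = V1 tr J B C := rfl
  have e2 : Vf tr J B C 2 = V2 tr J B C := rfl
  have e3 : Vf tr J B C 3 = V3 tr J B C := rfl
  rw [e0, e1, e2, e3, h0, h1, h2, h3]
  exact h

theorem V2_periodic (tr : 𝔸 →L[ℝ] ℝ) (J B C : 𝔸) (x : Fin 3 → ℝ) :
    V2 tr J B C (Fin.insertNth 2 (2 * Real.pi) x) = V2 tr J B C (Fin.insertNth 2 0 x) := by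
  have e : ∀ t : ℝ, (Fin.insertNth 2 t x : Fin 4 → ℝ) = ![x 0, x 1, t, x 2] := by
    intro t
    ext i
    fin_cases i <;> rfl
  have h1 : Pf J B (2 * Real.pi) = Pf J B 0 := by simp [Pf]
  have h2 : par ![x 0, x 1, 2 * Real.pi, x 2] = par ![x 0, x 1, 0, x 2] := by
    simp [par]
  rw [e, e, V2, V2, Qf, Qf, Rf, Rf, Ef, Ef, Zf, Zf, h2]
  simp [h1]

theorem V3_front (tr : 𝔸 →L[ℝ] ℝ) (J B C : 𝔸) (x : Fin 3 → ℝ) :
    V3 tr J B C (Fin.insertNth 3 1 x) = 0 := by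
  have e : (Fin.insertNth 3 1 x : Fin 4 → ℝ) = ![x 0, x 1, x 2, 1] := by
    ext i
    fin_cases i <;> rfl
  rw [e, V3, Yf]
  simp

/-- Stokes in dimension four. -/
theorem stokes4 (tr : 𝔸 →L[ℝ] ℝ) (htr : ∀ x y, tr (x * y) = tr (y * x)) {J B C : 𝔸}
    (hunit : ∀ y, y ≠ 0 → IsUnit (E6 J B C y)) {L : ℝ} (hL : 0 < L) :
    ∫ x in Icc (![-L, -L, 0] : Fin 3 → ℝ) ![L, L, 2 * Real.pi],
        V3 tr J B C (Fin.insertNth 3 0 x) =
      ((∫ x in Icc (![-L, 0, 0] : Fin 3 → ℝ) ![L, 2 * Real.pi, 1],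
          V0 tr J B C (Fin.insertNth 0 L x)) -
       ∫ x in Icc (![-L, 0, 0] : Fin 3 → ℝ) ![L, 2 * Real.pi, 1],
          V0 tr J B C (Fin.insertNth 0 (-L) x)) +
      ((∫ x in Icc (![-L, 0, 0] : Fin 3 → ℝ) ![L, 2 * Real.pi, 1],
          V1 tr J B C (Fin.insertNth 1 L x)) -
       ∫ x in Icc (![-L, 0, 0] : Fin 3 → ℝ) ![L, 2 * Real.pi, 1],
          V1 tr J B C (Fin.insertNth 1 (-L) x)) := by
  set a : Fin 4 → ℝ := ![-L, -L, 0, 0] with ha
  set b : Fin 4 → ℝ := ![L, L, 2 * Real.pi, 1] with hb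
  have hle : a ≤ b := by
    intro i
    fin_cases i
    · show -L ≤ L
      linarith
    · show -L ≤ L
      linarith
    · show (0 : ℝ) ≤ 2 * Real.pi
      positivity
    · show (0 : ℝ) ≤ 1
      norm_num
  have key := integral_divergence_of_hasFDerivAt_off_countable' a b hle (Vf tr J B C)
    (fun i x => fderiv ℝ (Vf tr J B C i) x) ∅ countable_empty
    (fun i => (continuous_iff_continuousAt.2
      fun x => (Vf_diff tr hunit i x).continuousAt).continuousOn)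
    (fun x _ i => (Vf_diff tr hunit i x).hasFDerivAt)
    (by
      simp only [Vf_div tr htr hunit]
      exact integrableOn_zero)
  simp only [Vf_div tr htr hunit, integral_zero] at key
  rw [Fin.sum_univ_four] at key
  have e0 : Vf tr J B C 0 = V0 tr J B C := rfl
  have e1 : Vf tr J B C 1 = V1 tr J B C := rfl
  have e2 : Vf tr J B C 2 = V2 tr J B C := rfl
  have e3 : Vf tr J B C 3 = V3 tr J B C := rfl
  have a0 : a ∘ Fin.succAbove 0 = ![-L, 0, 0] := by ext i; fin_cases i <;> rfl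
  have a1 : a ∘ Fin.succAbove 1 = ![-L, 0, 0] := by ext i; fin_cases i <;> rfl
  have a3 : a ∘ Fin.succAbove 3 = ![-L, -L, 0] := by ext i; fin_cases i <;> rfl
  have b0 : b ∘ Fin.succAbove 0 = ![L, 2 * Real.pi, 1] := by ext i; fin_cases i <;> rfl
  have b1 : b ∘ Fin.succAbove 1 = ![L, 2 * Real.pi, 1] := by ext i; fin_cases i <;> rfl
  have b3 : b ∘ Fin.succAbove 3 = ![L, L, 2 * Real.pi] := by ext i; fin_cases i <;> rfl
  have v1 : b 2 = 2 * Real.pi := rfl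
  have v2 : a 2 = 0 := rfl
  have v3 : b 3 = 1 := rfl
  have v4 : a 3 = 0 := rfl
  have v5 : b 0 = L := rfl
  have v6 : a 0 = -L := rfl
  have v7 : b 1 = L := rfl
  have v8 : a 1 = -L := rfl
  rw [e0, e1, e2, e3, a0, a1, a3, b0, b1, b3, v1, v2, v3, v4, v5, v6, v7, v8] at key
  simp only [V2_periodic, V3_front, integral_zero, sub_self] at key
  linarith

theorem norm_Pf_le (J B : 𝔸) (t : ℝ) : ‖Pf J B t‖ ≤ ‖B‖ + ‖J * B‖ := by
  unfold Pf
  refine (norm_add_le _ _).trans ?_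
  rw [norm_smul, norm_smul]
  have h1 : ‖Real.cos t‖ ≤ 1 := Real.abs_cos_le_one t
  have h2 : ‖Real.sin t‖ ≤ 1 := Real.abs_sin_le_one t
  have h3 := mul_le_mul_of_nonneg_right h1 (norm_nonneg B)
  have h4 := mul_le_mul_of_nonneg_right h2 (norm_nonneg (J * B))
  linarith

theorem norm_Wf_le (J B : 𝔸) (t : ℝ) : ‖Wf J B t‖ ≤ ‖B‖ + ‖J * B‖ := by
  unfold Wf
  refine (norm_add_le _ _).trans ?_
  rw [norm_smul, norm_smul, norm_neg]
  have h1 : ‖Real.cos t‖ ≤ 1 := Real.abs_cos_le_one t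
  have h2 : ‖Real.sin t‖ ≤ 1 := Real.abs_sin_le_one t
  have h3 := mul_le_mul_of_nonneg_right h2 (norm_nonneg B)
  have h4 := mul_le_mul_of_nonneg_right h1 (norm_nonneg (J * B))
  linarith

theorem norm_Rf_le {J B C : 𝔸} {K : ℝ} (hK0 : 0 < K)
    (hK : ∀ y, y ≠ 0 → ‖Ring.inverse (E6 J B C y)‖ ≤ K / ‖y‖) {L : ℝ} (hL : 0 < L)
    {x : Fin 4 → ℝ} (hx : L ≤ |x 0| ∨ L ≤ |x 1|) : ‖Rf J B C x‖ ≤ K / L := by
  have h1 : L ≤ ‖par x‖ := by
    rcases hx with h | h
    · exact h.trans (norm_le_pi_norm (par x) 0)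
    · exact h.trans (norm_le_pi_norm (par x) 1)
  refine (hK _ (par_ne_zero x)).trans ?_
  exact div_le_div_of_nonneg_left hK0.le hL h1

theorem V_bound (tr : 𝔸 →L[ℝ] ℝ) {J B C : 𝔸} {K : ℝ} (hK0 : 0 < K)
    (hK : ∀ y, y ≠ 0 → ‖Ring.inverse (E6 J B C y)‖ ≤ K / ‖y‖) {L : ℝ} (hL : 0 < L)
    {x : Fin 4 → ℝ} (hx : L ≤ |x 0| ∨ L ≤ |x 1|) (h3 : x 3 ∈ Icc (0 : ℝ) 1) :
    ‖V0 tr J B C x‖ ≤ 2 * (‖tr‖ * ((‖C‖ + (‖B‖ + ‖J * B‖)) ^ 2 * (‖J‖ + 1) * K ^ 3)) / L ^ 3 ∧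
    ‖V1 tr J B C x‖ ≤ 2 * (‖tr‖ * ((‖C‖ + (‖B‖ + ‖J * B‖)) ^ 2 * (‖J‖ + 1) * K ^ 3)) / L ^ 3 := by
  set m : ℝ := ‖C‖ + (‖B‖ + ‖J * B‖) with hm
  have hR := norm_Rf_le hK0 hK hL hx
  have hZ : ‖Zf J B C x‖ ≤ m := (norm_sub_le _ _).trans (by linarith [norm_Pf_le J B (x 2)])
  have hY : ‖Yf J B x‖ ≤ m := by
    unfold Yf
    rw [norm_smul]
    have h1 : ‖1 - x 3‖ ≤ 1 := by
      rw [Real.norm_eq_abs, abs_le]
      constructor <;> linarith [h3.1, h3.2]
    have h2 := norm_Wf_le J B (x 2)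
    have h4 := mul_le_mul h1 h2 (norm_nonneg _) zero_le_one
    linarith [norm_nonneg C]
  have hm0 : 0 ≤ m := (norm_nonneg _).trans hZ
  have hKL : 0 ≤ K / L := by positivity
  constructor
  · have h1 : ‖Rf J B C x * Zf J B C x * Rf J B C x * J * Rf J B C x * Yf J B x‖ ≤
        (K / L) * m * (K / L) * ‖J‖ * (K / L) * m := by
      refine (norm_mul_le _ _).trans (mul_le_mul ?_ hY (norm_nonneg _) (by positivity))
      refine (norm_mul_le _ _).trans (mul_le_mul ?_ hR (norm_nonneg _) (by positivity))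
      refine (norm_mul_le _ _).trans (mul_le_mul ?_ le_rfl (norm_nonneg _) (by positivity))
      refine (norm_mul_le _ _).trans (mul_le_mul ?_ hR (norm_nonneg _) (by positivity))
      exact (norm_mul_le _ _).trans (mul_le_mul hR hZ (norm_nonneg _) (by positivity))
    have h2 : (K / L) * m * (K / L) * ‖J‖ * (K / L) * m ≤
        (m ^ 2 * (‖J‖ + 1) * K ^ 3) / L ^ 3 := by
      have : (K / L) * m * (K / L) * ‖J‖ * (K / L) * m = (m ^ 2 * ‖J‖ * K ^ 3) / L ^ 3 := by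
        field_simp
      rw [this]
      gcongr
      linarith
    rw [V0, norm_mul]
    calc ‖(-2 : ℝ)‖ * ‖tr (Rf J B C x * Zf J B C x * Rf J B C x * J * Rf J B C x * Yf J B x)‖
        ≤ 2 * (‖tr‖ * ((m ^ 2 * (‖J‖ + 1) * K ^ 3) / L ^ 3)) := by
          rw [norm_neg, Real.norm_ofNat]
          apply mul_le_mul_of_nonneg_left _ (by norm_num)
          exact (tr.le_opNorm _).trans (mul_le_mul_of_nonneg_left (h1.trans h2) (norm_nonneg _))
      _ = _ := by ring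
  · have h1 : ‖Rf J B C x * Zf J B C x * Rf J B C x * Rf J B C x * Yf J B x‖ ≤
        (K / L) * m * (K / L) * (K / L) * m := by
      refine (norm_mul_le _ _).trans (mul_le_mul ?_ hY (norm_nonneg _) (by positivity))
      refine (norm_mul_le _ _).trans (mul_le_mul ?_ hR (norm_nonneg _) (by positivity))
      refine (norm_mul_le _ _).trans (mul_le_mul ?_ hR (norm_nonneg _) (by positivity))
      exact (norm_mul_le _ _).trans (mul_le_mul hR hZ (norm_nonneg _) (by positivity))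
    have h2 : (K / L) * m * (K / L) * (K / L) * m ≤
        (m ^ 2 * (‖J‖ + 1) * K ^ 3) / L ^ 3 := by
      have : (K / L) * m * (K / L) * (K / L) * m = (m ^ 2 * 1 * K ^ 3) / L ^ 3 := by
        field_simp
      rw [this]
      gcongr
      linarith [norm_nonneg J]
    rw [V1, norm_mul]
    calc ‖(2 : ℝ)‖ * ‖tr (Rf J B C x * Zf J B C x * Rf J B C x * Rf J B C x * Yf J B x)‖
        ≤ 2 * (‖tr‖ * ((m ^ 2 * (‖J‖ + 1) * K ^ 3) / L ^ 3)) := by
          rw [Real.norm_ofNat]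
          apply mul_le_mul_of_nonneg_left _ (by norm_num)
          exact (tr.le_opNorm _).trans (mul_le_mul_of_nonneg_left (h1.trans h2) (norm_nonneg _))
      _ = _ := by ring

/-- The upper bound for the face integral. -/
theorem face3_abs_le (tr : 𝔸 →L[ℝ] ℝ) (htr : ∀ x y, tr (x * y) = tr (y * x)) {J B C : 𝔸}
    (hunit : ∀ y, y ≠ 0 → IsUnit (E6 J B C y)) : ∃ M : ℝ, 0 ≤ M ∧ ∀ L : ℝ, 0 < L →
    |∫ x in Icc (![-L, -L, 0] : Fin 3 → ℝ) ![L, L, 2 * Real.pi],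
        V3 tr J B C (Fin.insertNth 3 0 x)| ≤ M / L ^ 2 := by
  obtain ⟨K, hK0, hK⟩ := inv_bound hunit
  set M0 : ℝ := 2 * (‖tr‖ * ((‖C‖ + (‖B‖ + ‖J * B‖)) ^ 2 * (‖J‖ + 1) * K ^ 3)) with hM0
  have hM00 : 0 ≤ M0 := by positivity
  refine ⟨4 * (M0 * (4 * Real.pi)), by positivity, ?_⟩
  intro L hL
  rw [stokes4 tr htr hunit hL]
  have hvol : (volume (Icc (![-L, 0, 0] : Fin 3 → ℝ) ![L, 2 * Real.pi, 1])).toReal =
      4 * Real.pi * L := by
    rw [Real.volume_Icc_pi_toReal]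
    · rw [Fin.prod_univ_three]
      show (L - -L) * (2 * Real.pi - 0) * (1 - 0) = _
      ring
    · intro i
      fin_cases i
      · show -L ≤ L
        linarith
      · show (0 : ℝ) ≤ 2 * Real.pi
        positivity
      · show (0 : ℝ) ≤ 1
        norm_num
  have hfin : volume (Icc (![-L, 0, 0] : Fin 3 → ℝ) ![L, 2 * Real.pi, 1]) < ⊤ :=
    isCompact_Icc.measure_lt_top
  have hins0 : ∀ (t : ℝ) (x : Fin 3 → ℝ),
      (Fin.insertNth 0 t x : Fin 4 → ℝ) = ![t, x 0, x 1, x 2] := by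
    intro t x
    ext i
    fin_cases i <;> rfl
  have hins1 : ∀ (t : ℝ) (x : Fin 3 → ℝ),
      (Fin.insertNth 1 t x : Fin 4 → ℝ) = ![x 0, t, x 1, x 2] := by
    intro t x
    ext i
    fin_cases i <;> rfl
  have habs : ∀ t : ℝ, (t = L ∨ t = -L) → L ≤ |t| := by
    rintro t (rfl | rfl)
    · exact le_abs_self _
    · rw [abs_neg]; exact le_abs_self _
  have B0 : ∀ t : ℝ, (t = L ∨ t = -L) →
      ‖∫ x in Icc (![-L, 0, 0] : Fin 3 → ℝ) ![L, 2 * Real.pi, 1],
          V0 tr J B C (Fin.insertNth 0 t x)‖ ≤ M0 / L ^ 3 * (4 * Real.pi * L) := by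
    intro t ht
    have h1 := norm_setIntegral_le_of_norm_le_const (μ := volume)
      (f := fun x : Fin 3 → ℝ => V0 tr J B C (Fin.insertNth 0 t x)) (C := M0 / L ^ 3) hfin
      (fun x hx => by
        refine (V_bound tr hK0 hK hL (Or.inl ?_) ?_).1
        · rw [hins0]; exact habs t ht
        · rw [hins0]
          exact ⟨hx.1 2, hx.2 2⟩)
    rw [measureReal_def, hvol] at h1
    exact h1
  have B1 : ∀ t : ℝ, (t = L ∨ t = -L) →
      ‖∫ x in Icc (![-L, 0, 0] : Fin 3 → ℝ) ![L, 2 * Real.pi, 1],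
          V1 tr J B C (Fin.insertNth 1 t x)‖ ≤ M0 / L ^ 3 * (4 * Real.pi * L) := by
    intro t ht
    have h1 := norm_setIntegral_le_of_norm_le_const (μ := volume)
      (f := fun x : Fin 3 → ℝ => V1 tr J B C (Fin.insertNth 1 t x)) (C := M0 / L ^ 3) hfin
      (fun x hx => by
        refine (V_bound tr hK0 hK hL (Or.inr ?_) ?_).2
        · rw [hins1]; exact habs t ht
        · rw [hins1]
          exact ⟨hx.1 2, hx.2 2⟩)
    rw [measureReal_def, hvol] at h1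
    exact h1
  have b1 := B0 L (Or.inl rfl)
  have b2 := B0 (-L) (Or.inr rfl)
  have b3 := B1 L (Or.inl rfl)
  have b4 := B1 (-L) (Or.inr rfl)
  have e : 4 * (M0 * (4 * Real.pi)) / L ^ 2 = 4 * (M0 / L ^ 3 * (4 * Real.pi * L)) := by
    field_simp
  rw [e]
  refine (abs_add_le _ _).trans ?_
  have c1 := abs_sub (∫ x in Icc (![-L, 0, 0] : Fin 3 → ℝ) ![L, 2 * Real.pi, 1],
          V0 tr J B C (Fin.insertNth 0 L x)) (∫ x in Icc (![-L, 0, 0] : Fin 3 → ℝ) ![L, 2 * Real.pi, 1],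
          V0 tr J B C (Fin.insertNth 0 (-L) x))
  have c2 := abs_sub (∫ x in Icc (![-L, 0, 0] : Fin 3 → ℝ) ![L, 2 * Real.pi, 1],
          V1 tr J B C (Fin.insertNth 1 L x)) (∫ x in Icc (![-L, 0, 0] : Fin 3 → ℝ) ![L, 2 * Real.pi, 1],
          V1 tr J B C (Fin.insertNth 1 (-L) x))
  rw [Real.norm_eq_abs] at b1 b2 b3 b4
  linarith

/-- The embedding of the face `s = 0`. -/
noncomputable def iota : (Fin 3 → ℝ) →L[ℝ] (Fin 4 → ℝ) :=
  ContinuousLinearMap.pi ![ContinuousLinearMap.proj 0, ContinuousLinearMap.proj 1,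
    ContinuousLinearMap.proj 2, 0]

theorem iota_apply (x : Fin 3 → ℝ) : iota x = ![x 0, x 1, x 2, 0] := by
  ext i
  fin_cases i <;> rfl

theorem iota_eq (x : Fin 3 → ℝ) : iota x = Fin.insertNth 3 0 x := by
  ext i
  fin_cases i <;> rfl

noncomputable def U0 (tr : 𝔸 →L[ℝ] ℝ) (J B C : 𝔸) (x : Fin 3 → ℝ) : ℝ :=
  (-1) * tr (Rf J B C (iota x))

noncomputable def U1 (tr : 𝔸 →L[ℝ] ℝ) (J B C : 𝔸) (x : Fin 3 → ℝ) : ℝ :=
  (-1) * tr (Rf J B C (iota x) * J)

theorem hasFDerivAt_RI {J B C : 𝔸} (hunit : ∀ y, y ≠ 0 → IsUnit (E6 J B C y)) (x : Fin 3 → ℝ) :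
    HasFDerivAt (fun x => Rf J B C (iota x))
      (((pr 0).smulRight (-(Rf J B C (iota x) * Rf J B C (iota x))) +
       (pr 1).smulRight (-(Rf J B C (iota x) * J * Rf J B C (iota x))) +
       (pr 2).smulRight (-(Rf J B C (iota x) * Yf J B (iota x) * Rf J B C (iota x))) +
       (pr 3).smulRight (-(Rf J B C (iota x) * Zf J B C (iota x) * Rf J B C (iota x)))).comp
        iota) x :=
  (hasFDerivAt_Rf hunit (iota x)).comp x iota.hasFDerivAt

theorem U0_deriv (tr : 𝔸 →L[ℝ] ℝ) {J B C : 𝔸} (hunit : ∀ y, y ≠ 0 → IsUnit (E6 J B C y))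
    (x : Fin 3 → ℝ) : DifferentiableAt ℝ (U0 tr J B C) x ∧
    fderiv ℝ (U0 tr J B C) x (Pi.single 0 1) = tr (Rf J B C (iota x) * Rf J B C (iota x)) := by
  have hR := hasFDerivAt_RI hunit x
  have h := (tr.hasFDerivAt.comp x hR).const_mul (-1)
  have h' : HasFDerivAt (U0 tr J B C) _ x := h
  refine ⟨h'.differentiableAt, ?_⟩
  rw [h'.fderiv]
  have e : iota (Pi.single 0 1) = ![1, 0, 0, 0] := by
    rw [iota_apply]
    ext i
    fin_cases i <;> simp
  simp only [smul_apply, ContinuousLinearMap.comp_apply, add_apply,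
    ContinuousLinearMap.smulRight_apply, ContinuousLinearMap.proj_apply, e]
  simp

theorem U1_deriv (tr : 𝔸 →L[ℝ] ℝ) {J B C : 𝔸} (hunit : ∀ y, y ≠ 0 → IsUnit (E6 J B C y))
    (x : Fin 3 → ℝ) : DifferentiableAt ℝ (U1 tr J B C) x ∧
    fderiv ℝ (U1 tr J B C) x (Pi.single 1 1) =
      tr (Rf J B C (iota x) * J * Rf J B C (iota x) * J) := by
  have hR := hasFDerivAt_RI hunit x
  have hJ := hasFDerivAt_const (𝕜 := ℝ) J x
  have h := (tr.hasFDerivAt.comp x (hR.fun_mul' hJ)).const_mul (-1)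
  have h' : HasFDerivAt (U1 tr J B C) _ x := h
  refine ⟨h'.differentiableAt, ?_⟩
  rw [h'.fderiv]
  have e : iota (Pi.single 1 1) = ![0, 1, 0, 0] := by
    rw [iota_apply]
    ext i
    fin_cases i <;> simp
  simp only [smul_apply, ContinuousLinearMap.comp_apply, add_apply,
    ContinuousLinearMap.smulRight_apply, ContinuousLinearMap.proj_apply, e,
    MulOpposite.smul_eq_mul_unop, MulOpposite.unop_op]
  simp

theorem V3_iota (tr : 𝔸 →L[ℝ] ℝ) (htr : ∀ x y, tr (x * y) = tr (y * x)) {J B C : 𝔸}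
    (hJ : J * J = -1) (hunit : ∀ y, y ≠ 0 → IsUnit (E6 J B C y)) (x : Fin 3 → ℝ) :
    V3 tr J B C (iota x) = tr (Rf J B C (iota x) * Rf J B C (iota x)) +
      tr (Rf J B C (iota x) * J * Rf J B C (iota x) * J) := by
  have hu := isUnit_Ef hunit (iota x)
  have hE : Ef J B C (iota x) = x 0 • (1 : 𝔸) + x 1 • J + Pf J B (x 2) := by
    rw [Ef_eq, iota_apply]
    simp
  have h := face_identity (tr : 𝔸 →ₗ[ℝ] ℝ) htr (Rf J B C (iota x)) J (Pf J B (x 2))
    (Ef J B C (iota x)) (x 0) (x 1) hJ (Ring.mul_inverse_cancel _ hu) hE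
  have hY : Yf J B (iota x) = J * Pf J B (x 2) := by
    rw [Yf, iota_apply]
    simp only [Pf, Wf]
    simp only [mul_add, mul_smul_comm, ← mul_assoc, hJ]
    simp
    abel
  rw [V3, Qf, hY]
  exact h

/-- Stokes in dimension three. -/
theorem stokes3 (tr : 𝔸 →L[ℝ] ℝ) (htr : ∀ x y, tr (x * y) = tr (y * x)) {J B C : 𝔸}
    (hJ : J * J = -1) (hunit : ∀ y, y ≠ 0 → IsUnit (E6 J B C y)) {L : ℝ} (hL : 0 < L) :
    ∫ x in Icc (![-L, -L, 0] : Fin 3 → ℝ) ![L, L, 2 * Real.pi],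
        V3 tr J B C (Fin.insertNth 3 0 x) =
      ((∫ x in Icc (![-L, 0] : Fin 2 → ℝ) ![L, 2 * Real.pi],
          U0 tr J B C (Fin.insertNth 0 L x)) -
       ∫ x in Icc (![-L, 0] : Fin 2 → ℝ) ![L, 2 * Real.pi],
          U0 tr J B C (Fin.insertNth 0 (-L) x)) +
      ((∫ x in Icc (![-L, 0] : Fin 2 → ℝ) ![L, 2 * Real.pi],
          U1 tr J B C (Fin.insertNth 1 L x)) -
       ∫ x in Icc (![-L, 0] : Fin 2 → ℝ) ![L, 2 * Real.pi],
          U1 tr J B C (Fin.insertNth 1 (-L) x)) := by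
  set a : Fin 3 → ℝ := ![-L, -L, 0] with ha
  set b : Fin 3 → ℝ := ![L, L, 2 * Real.pi] with hb
  have hle : a ≤ b := by
    intro i
    fin_cases i
    · show -L ≤ L
      linarith
    · show -L ≤ L
      linarith
    · show (0 : ℝ) ≤ 2 * Real.pi
      positivity
  let U : Fin 3 → (Fin 3 → ℝ) → ℝ := ![U0 tr J B C, U1 tr J B C, fun _ => 0]
  have hUd : ∀ (i : Fin 3) (x : Fin 3 → ℝ), DifferentiableAt ℝ (U i) x := by
    intro i x
    fin_cases i
    · exact (U0_deriv tr hunit x).1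
    · exact (U1_deriv tr hunit x).1
    · exact differentiableAt_const 0
  have hdiv : ∀ x : Fin 3 → ℝ, ∑ i, fderiv ℝ (U i) x (Pi.single i 1) =
      V3 tr J B C (Fin.insertNth 3 0 x) := by
    intro x
    rw [Fin.sum_univ_three]
    have h0 := (U0_deriv tr hunit x).2
    have h1 := (U1_deriv tr hunit x).2
    have e0 : U 0 = U0 tr J B C := rfl
    have e1 : U 1 = U1 tr J B C := rfl
    have e2 : U 2 = fun _ => 0 := rfl
    have h2 : fderiv ℝ (fun _ : Fin 3 → ℝ => (0 : ℝ)) x = 0 := by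
      exact fderiv_const_apply 0
    rw [e0, e1, e2, h0, h1, h2, ← iota_eq, V3_iota tr htr hJ hunit]
    simp
  have hcont : Continuous (fun x : Fin 3 → ℝ => V3 tr J B C (Fin.insertNth 3 0 x)) := by
    have : (fun x : Fin 3 → ℝ => V3 tr J B C (Fin.insertNth 3 0 x)) =
        fun x => V3 tr J B C (iota x) := by
      funext x
      rw [iota_eq]
    rw [this]
    have h3 : Continuous (V3 tr J B C) :=
      continuous_iff_continuousAt.2 fun x => (V3_deriv tr hunit x).1.continuousAt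
    exact h3.comp iota.continuous
  have key := integral_divergence_of_hasFDerivAt_off_countable' a b hle U
    (fun i x => fderiv ℝ (U i) x) ∅ countable_empty
    (fun i => (continuous_iff_continuousAt.2
      fun x => (hUd i x).continuousAt).continuousOn)
    (fun x _ i => (hUd i x).hasFDerivAt)
    (by
      simp only [hdiv]
      exact hcont.integrableOn_Icc)
  simp only [hdiv] at key
  rw [Fin.sum_univ_three] at key
  have e0 : U 0 = U0 tr J B C := rfl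
  have e1 : U 1 = U1 tr J B C := rfl
  have e2 : U 2 = fun _ => 0 := rfl
  have a0 : a ∘ Fin.succAbove 0 = ![-L, 0] := by ext i; fin_cases i <;> rfl
  have a1 : a ∘ Fin.succAbove 1 = ![-L, 0] := by ext i; fin_cases i <;> rfl
  have b0 : b ∘ Fin.succAbove 0 = ![L, 2 * Real.pi] := by ext i; fin_cases i <;> rfl
  have b1 : b ∘ Fin.succAbove 1 = ![L, 2 * Real.pi] := by ext i; fin_cases i <;> rfl
  have v5 : b 0 = L := rfl
  have v6 : a 0 = -L := rfl
  have v7 : b 1 = L := rfl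
  have v8 : a 1 = -L := rfl
  rw [e0, e1, e2, a0, a1, b0, b1, v5, v6, v7, v8] at key
  simp only [integral_zero, sub_self] at key
  linarith

/-- Inverse of `a + bJ`. -/
noncomputable def lam (J : 𝔸) (a b : ℝ) : 𝔸 :=
  (a / (a ^ 2 + b ^ 2)) • (1 : 𝔸) - (b / (a ^ 2 + b ^ 2)) • J

theorem lam_mul {J : 𝔸} (hJ : J * J = -1) {a b : ℝ} (h : 0 < a ^ 2 + b ^ 2) :
    lam J a b * (a • (1 : 𝔸) + b • J) = 1 := by
  unfold lam
  simp only [sub_mul, mul_add, smul_mul_smul_comm, mul_one, one_mul, hJ]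
  have e : a / (a ^ 2 + b ^ 2) * a + b / (a ^ 2 + b ^ 2) * b = 1 := by
    field_simp
  have e2 : a / (a ^ 2 + b ^ 2) * b = b / (a ^ 2 + b ^ 2) * a := by ring
  rw [e2, smul_neg]
  calc _ = (a / (a ^ 2 + b ^ 2) * a + b / (a ^ 2 + b ^ 2) * b) • (1 : 𝔸) := by
        rw [add_smul]
        abel
    _ = 1 := by rw [e, one_smul]

theorem lam_mul_J {J : 𝔸} (hJ : J * J = -1) (a b : ℝ) :
    lam J a b * J = (a / (a ^ 2 + b ^ 2)) • J + (b / (a ^ 2 + b ^ 2)) • (1 : 𝔸) := by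
  unfold lam
  rw [sub_mul, smul_mul_assoc, smul_mul_assoc, one_mul, hJ, smul_neg, sub_neg_eq_add]

theorem norm_lam_le (J : 𝔸) {a b L : ℝ} (hL : 0 < L) (ha : |a| ≤ L) (hb : |b| ≤ L)
    (h : L ^ 2 ≤ a ^ 2 + b ^ 2) : ‖lam J a b‖ ≤ (‖(1 : 𝔸)‖ + ‖J‖) / L := by
  have hn : 0 < a ^ 2 + b ^ 2 := lt_of_lt_of_le (by positivity) h
  have key : ∀ t : ℝ, |t| ≤ L → ‖t / (a ^ 2 + b ^ 2)‖ ≤ 1 / L := by
    intro t ht
    rw [norm_div, Real.norm_eq_abs, Real.norm_of_nonneg hn.le, div_le_div_iff₀ hn hL]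
    nlinarith
  unfold lam
  refine (norm_sub_le _ _).trans ?_
  rw [norm_smul, norm_smul]
  have h1 := mul_le_mul_of_nonneg_right (key a ha) (norm_nonneg (1 : 𝔸))
  have h2 := mul_le_mul_of_nonneg_right (key b hb) (norm_nonneg J)
  have e : (‖(1 : 𝔸)‖ + ‖J‖) / L = 1 / L * ‖(1 : 𝔸)‖ + 1 / L * ‖J‖ := by ring
  rw [e]
  linarith

theorem resolvent {J B C : 𝔸} (hJ : J * J = -1) (hunit : ∀ y, y ≠ 0 → IsUnit (E6 J B C y))
    (x : Fin 3 → ℝ) (h : 0 < (x 0) ^ 2 + (x 1) ^ 2) :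
    Rf J B C (iota x) = lam J (x 0) (x 1) -
      lam J (x 0) (x 1) * Pf J B (x 2) * Rf J B C (iota x) := by
  have hu := isUnit_Ef hunit (iota x)
  have hE : Ef J B C (iota x) = x 0 • (1 : 𝔸) + x 1 • J + Pf J B (x 2) := by
    rw [Ef_eq, iota_apply]
    simp
  have h1 : Ef J B C (iota x) * Rf J B C (iota x) = 1 := Ring.mul_inverse_cancel _ hu
  have h2 : lam J (x 0) (x 1) * (Ef J B C (iota x) * Rf J B C (iota x)) = lam J (x 0) (x 1) := by
    rw [h1, mul_one]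
  rw [hE, add_mul, mul_add, ← mul_assoc, lam_mul hJ h, one_mul, ← mul_assoc] at h2
  rw [eq_sub_iff_add_eq]
  exact h2

theorem face_bounds (tr : 𝔸 →L[ℝ] ℝ) {J B C : 𝔸} (hJ : J * J = -1)
    (hunit : ∀ y, y ≠ 0 → IsUnit (E6 J B C y)) (hτ : 0 ≤ tr 1) :
    ∃ M : ℝ, 0 ≤ M ∧ ∀ L : ℝ, 0 < L → ∀ y : Fin 2 → ℝ, |y 0| ≤ L →
      U0 tr J B C (Fin.insertNth 0 L y) - U0 tr J B C (Fin.insertNth 0 (-L) y) ≤
        -(tr 1) / L + M / L ^ 2 ∧
      U1 tr J B C (Fin.insertNth 1 L y) - U1 tr J B C (Fin.insertNth 1 (-L) y) ≤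
        -(tr 1) / L + M / L ^ 2 := by
  obtain ⟨K, hK0, hK⟩ := inv_bound hunit
  set m : ℝ := ‖B‖ + ‖J * B‖ with hm
  have hm0 : 0 ≤ m := by positivity
  set M0 : ℝ := ‖tr‖ * ((‖(1 : 𝔸)‖ + ‖J‖) * m * K * (1 + ‖J‖)) with hM0
  have hM00 : 0 ≤ M0 := by positivity
  refine ⟨2 * M0, by positivity, ?_⟩
  intro L hL y hy
  -- error bounds
  have err : ∀ x : Fin 3 → ℝ, |x 0| ≤ L → |x 1| ≤ L → (L ≤ |x 0| ∨ L ≤ |x 1|) →
      0 < (x 0) ^ 2 + (x 1) ^ 2 ∧
      |tr (lam J (x 0) (x 1) * Pf J B (x 2) * Rf J B C (iota x))| ≤ M0 / L ^ 2 ∧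
      |tr (lam J (x 0) (x 1) * Pf J B (x 2) * Rf J B C (iota x) * J)| ≤ M0 / L ^ 2 := by
    intro x h0 h1 h2
    have hn : L ^ 2 ≤ (x 0) ^ 2 + (x 1) ^ 2 := by
      rcases h2 with h | h
      · have := pow_le_pow_left₀ hL.le h 2
        rw [sq_abs] at this
        nlinarith [sq_nonneg (x 1)]
      · have := pow_le_pow_left₀ hL.le h 2
        rw [sq_abs] at this
        nlinarith [sq_nonneg (x 0)]
    have hR : ‖Rf J B C (iota x)‖ ≤ K / L := by
      apply norm_Rf_le hK0 hK hL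
      rw [iota_apply]
      exact h2
    have hl := norm_lam_le J hL h0 h1 hn
    have hP := norm_Pf_le J B (x 2)
    have h3 : ‖lam J (x 0) (x 1) * Pf J B (x 2) * Rf J B C (iota x)‖ ≤
        (‖(1 : 𝔸)‖ + ‖J‖) / L * m * (K / L) := by
      refine (norm_mul_le _ _).trans (mul_le_mul ?_ hR (norm_nonneg _) (by positivity))
      exact (norm_mul_le _ _).trans (mul_le_mul hl hP (norm_nonneg _) (by positivity))
    have h4 : ‖lam J (x 0) (x 1) * Pf J B (x 2) * Rf J B C (iota x) * J‖ ≤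
        (‖(1 : 𝔸)‖ + ‖J‖) / L * m * (K / L) * ‖J‖ :=
      (norm_mul_le _ _).trans (mul_le_mul h3 le_rfl (norm_nonneg _) (by positivity))
    have hc : 0 ≤ (‖(1 : 𝔸)‖ + ‖J‖) / L * m * (K / L) := by positivity
    have e : M0 / L ^ 2 = ‖tr‖ * ((‖(1 : 𝔸)‖ + ‖J‖) / L * m * (K / L) * (1 + ‖J‖)) := by
      rw [hM0]
      field_simp
    refine ⟨lt_of_lt_of_le (by positivity) hn, ?_, ?_⟩
    · rw [e]
      refine (tr.le_opNorm _).trans (mul_le_mul_of_nonneg_left (h3.trans ?_) (norm_nonneg _))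
      nlinarith [norm_nonneg J]
    · rw [e]
      refine (tr.le_opNorm _).trans (mul_le_mul_of_nonneg_left (h4.trans ?_) (norm_nonneg _))
      nlinarith [norm_nonneg J]
  have hLL : |L| ≤ L := by rw [abs_of_pos hL]
  have hLL' : L ≤ |L| := le_abs_self L
  have hnn : 0 < L ^ 2 + (y 0) ^ 2 := by positivity
  have hy2 : (y 0) ^ 2 ≤ L ^ 2 := by
    rw [← sq_abs]
    exact pow_le_pow_left₀ (abs_nonneg _) hy 2
  have hmain : tr 1 / L ≤ 2 * (L / (L ^ 2 + (y 0) ^ 2) * tr 1) := by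
    have h1 : 1 / L ≤ 2 * (L / (L ^ 2 + (y 0) ^ 2)) := by
      rw [← mul_div_assoc, div_le_div_iff₀ hL hnn]
      nlinarith
    have h2 := mul_le_mul_of_nonneg_right h1 hτ
    calc tr 1 / L = 1 / L * tr 1 := by ring
      _ ≤ _ := h2
      _ = _ := by ring
  have hneg : -(tr 1) / L = -(tr 1 / L) := by ring
  have hins0 : ∀ (t : ℝ), (Fin.insertNth 0 t y : Fin 3 → ℝ) = ![t, y 0, y 1] := by
    intro t
    ext i
    fin_cases i <;> rfl
  have hins1 : ∀ (t : ℝ), (Fin.insertNth 1 t y : Fin 3 → ℝ) = ![y 0, t, y 1] := by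
    intro t
    ext i
    fin_cases i <;> rfl
  constructor
  · rw [hins0, hins0]
    obtain ⟨p1, q1, -⟩ := err ![L, y 0, y 1] hLL hy (Or.inl hLL')
    obtain ⟨p2, q2, -⟩ := err ![-L, y 0, y 1] (by show |-L| ≤ L; rw [abs_neg]; exact hLL) hy
      (Or.inl (by show L ≤ |-L|; rw [abs_neg]; exact hLL'))
    have r1 := resolvent hJ hunit ![L, y 0, y 1] p1
    have r2 := resolvent hJ hunit ![-L, y 0, y 1] p2
    have s1 : U0 tr J B C ![L, y 0, y 1] = -(L / (L ^ 2 + (y 0) ^ 2) * tr 1)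
        + (y 0) / (L ^ 2 + (y 0) ^ 2) * tr J + tr (lam J L (y 0) * Pf J B (y 1) *
          Rf J B C (iota ![L, y 0, y 1])) := by
      have hU : U0 tr J B C ![L, y 0, y 1] = - tr (Rf J B C (iota ![L, y 0, y 1])) := by
        rw [U0]; ring
      have hr := congrArg tr r1
      simp only [map_sub, Matrix.cons_val_zero, Matrix.cons_val_one, Matrix.cons_val] at hr
      have hl : tr (lam J L (y 0)) = L / (L ^ 2 + (y 0) ^ 2) * tr 1
        - (y 0) / (L ^ 2 + (y 0) ^ 2) * tr J := by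
          simp only [lam, map_sub, map_smul, smul_eq_mul]
      rw [hU, hr, hl]
      ring
    have s2 : U0 tr J B C ![-L, y 0, y 1] = (L / (L ^ 2 + (y 0) ^ 2) * tr 1)
        + (y 0) / (L ^ 2 + (y 0) ^ 2) * tr J + tr (lam J (-L) (y 0) * Pf J B (y 1) *
          Rf J B C (iota ![-L, y 0, y 1])) := by
      have hU : U0 tr J B C ![-L, y 0, y 1] = - tr (Rf J B C (iota ![-L, y 0, y 1])) := by
        rw [U0]; ring
      have hr := congrArg tr r2
      simp only [map_sub, Matrix.cons_val_zero, Matrix.cons_val_one, Matrix.cons_val] at hr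
      have hl : tr (lam J (-L) (y 0)) = -(L / (L ^ 2 + (y 0) ^ 2) * tr 1)
        - (y 0) / (L ^ 2 + (y 0) ^ 2) * tr J := by
          simp only [lam, map_sub, map_smul, smul_eq_mul, neg_sq]
          ring
      rw [hU, hr, hl]
      ring
    rw [s1, s2]
    have t1 := le_of_abs_le q1
    have t2 := neg_le_of_abs_le q2
    simp only [Matrix.cons_val_zero, Matrix.cons_val_one, Matrix.cons_val] at t1 t2
    rw [hneg, mul_div_assoc]
    linarith
  · rw [hins1, hins1]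
    have hnn' : (y 0) ^ 2 + L ^ 2 = L ^ 2 + (y 0) ^ 2 := add_comm _ _
    obtain ⟨p1, -, q1⟩ := err ![y 0, L, y 1] hy hLL (Or.inr hLL')
    obtain ⟨p2, -, q2⟩ := err ![y 0, -L, y 1] hy (by show |-L| ≤ L; rw [abs_neg]; exact hLL)
      (Or.inr (by show L ≤ |-L|; rw [abs_neg]; exact hLL'))
    have r1 := resolvent hJ hunit ![y 0, L, y 1] p1
    have r2 := resolvent hJ hunit ![y 0, -L, y 1] p2
    have s1 : U1 tr J B C ![y 0, L, y 1] = -(L / (L ^ 2 + (y 0) ^ 2) * tr 1)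
        - (y 0) / (L ^ 2 + (y 0) ^ 2) * tr J + tr (lam J (y 0) L * Pf J B (y 1) *
          Rf J B C (iota ![y 0, L, y 1]) * J) := by
      have hU : U1 tr J B C ![y 0, L, y 1] = - tr (Rf J B C (iota ![y 0, L, y 1]) * J) := by
        rw [U1]; ring
      have hr := congrArg (fun u => tr (u * J)) r1
      simp only [map_sub, Matrix.cons_val_zero, Matrix.cons_val_one, Matrix.cons_val,
        sub_mul] at hr
      have hl : tr (lam J (y 0) L * J) = (y 0) / (L ^ 2 + (y 0) ^ 2) * tr J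
        + L / (L ^ 2 + (y 0) ^ 2) * tr 1 := by
          rw [lam_mul_J hJ]
          simp only [map_add, map_smul, smul_eq_mul, hnn']
      rw [hU, hr, hl]
      ring
    have s2 : U1 tr J B C ![y 0, -L, y 1] = (L / (L ^ 2 + (y 0) ^ 2) * tr 1)
        - (y 0) / (L ^ 2 + (y 0) ^ 2) * tr J + tr (lam J (y 0) (-L) * Pf J B (y 1) *
          Rf J B C (iota ![y 0, -L, y 1]) * J) := by
      have hU : U1 tr J B C ![y 0, -L, y 1] = - tr (Rf J B C (iota ![y 0, -L, y 1]) * J) := by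
        rw [U1]; ring
      have hr := congrArg (fun u => tr (u * J)) r2
      simp only [map_sub, Matrix.cons_val_zero, Matrix.cons_val_one, Matrix.cons_val,
        sub_mul] at hr
      have hl : tr (lam J (y 0) (-L) * J) = (y 0) / (L ^ 2 + (y 0) ^ 2) * tr J
        - L / (L ^ 2 + (y 0) ^ 2) * tr 1 := by
          rw [lam_mul_J hJ]
          simp only [map_add, map_smul, smul_eq_mul, neg_sq, hnn']
          ring
      rw [hU, hr, hl]
      ring
    rw [s1, s2]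
    have t1 := le_of_abs_le q1
    have t2 := neg_le_of_abs_le q2
    simp only [Matrix.cons_val_zero, Matrix.cons_val_one, Matrix.cons_val] at t1 t2
    rw [hneg, mul_div_assoc]
    linarith

theorem face2_le {f g : (Fin 2 → ℝ) → ℝ} (hf : Continuous f) (hg : Continuous g) {c L : ℝ}
    (hL : 0 < L) (h : ∀ y : Fin 2 → ℝ, |y 0| ≤ L → f y - g y ≤ c) :
    (∫ x in Icc (![-L, 0] : Fin 2 → ℝ) ![L, 2 * Real.pi], f x) -
      (∫ x in Icc (![-L, 0] : Fin 2 → ℝ) ![L, 2 * Real.pi], g x) ≤ c * (4 * Real.pi * L) := by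
  rw [← integral_sub hf.integrableOn_Icc hg.integrableOn_Icc]
  have hvol : (volume (Icc (![-L, 0] : Fin 2 → ℝ) ![L, 2 * Real.pi])).toReal =
      4 * Real.pi * L := by
    rw [Real.volume_Icc_pi_toReal]
    · rw [Fin.prod_univ_two]
      show (L - -L) * (2 * Real.pi - 0) = _
      ring
    · intro i
      fin_cases i
      · show -L ≤ L
        linarith
      · show (0 : ℝ) ≤ 2 * Real.pi
        positivity
  have h1 : ∫ x in Icc (![-L, 0] : Fin 2 → ℝ) ![L, 2 * Real.pi], (f x - g x) ≤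
      ∫ _ in Icc (![-L, 0] : Fin 2 → ℝ) ![L, 2 * Real.pi], c := by
    apply setIntegral_mono_on (hf.sub hg).integrableOn_Icc continuous_const.integrableOn_Icc
      measurableSet_Icc
    intro x hx
    apply h
    rw [abs_le]
    exact ⟨hx.1 0, hx.2 0⟩
  refine h1.trans ?_
  rw [setIntegral_const, measureReal_def, hvol, smul_eq_mul]
  linarith

/-- **Main analytic result.** Some nonzero combination `(a + bJ) + (c + dJ) B + (e + fJ) C` is
not invertible. -/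
theorem exists_singular (tr : 𝔸 →L[ℝ] ℝ) (htr : ∀ x y, tr (x * y) = tr (y * x))
    (h1 : 0 < tr 1) {J : 𝔸} (hJ : J * J = -1) (B C : 𝔸) :
    ∃ y : Fin 6 → ℝ, y ≠ 0 ∧ ¬ IsUnit (E6 J B C y) := by
  by_contra hcon
  push Not at hcon
  have hunit : ∀ y, y ≠ 0 → IsUnit (E6 J B C y) := hcon
  obtain ⟨M1, hM1, hS4⟩ := face3_abs_le tr htr hunit
  obtain ⟨M2, hM2, hS3⟩ := face_bounds tr hJ hunit h1.le
  have hpi := Real.pi_pos
  set τ := tr 1 with hτ
  -- choose L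
  obtain ⟨L, hL1, hL2⟩ : ∃ L : ℝ, 1 ≤ L ∧ M1 + 8 * Real.pi * M2 < 8 * Real.pi * τ * L := by
    refine ⟨(M1 + 8 * Real.pi * M2) / (8 * Real.pi * τ) + 1, ?_, ?_⟩
    · have : 0 ≤ (M1 + 8 * Real.pi * M2) / (8 * Real.pi * τ) := by positivity
      linarith
    · rw [mul_add, mul_div_cancel₀ _ (by positivity : 8 * Real.pi * τ ≠ 0)]
      have : 0 < 8 * Real.pi * τ := by positivity
      linarith
  have hL : 0 < L := by linarith
  have k4 := hS4 L hL
  rw [stokes3 tr htr hJ hunit hL] at k4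
  have hcU0 : Continuous (U0 tr J B C) :=
    continuous_iff_continuousAt.2 fun x => (U0_deriv tr hunit x).1.continuousAt
  have hcU1 : Continuous (U1 tr J B C) :=
    continuous_iff_continuousAt.2 fun x => (U1_deriv tr hunit x).1.continuousAt
  have hins0 : ∀ t : ℝ, Continuous (fun x : Fin 2 → ℝ => (Fin.insertNth 0 t x : Fin 3 → ℝ)) := by
    intro t
    have e : (fun x : Fin 2 → ℝ => (Fin.insertNth 0 t x : Fin 3 → ℝ)) =
        fun x => ![t, x 0, x 1] := by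
      funext x
      ext i
      fin_cases i <;> rfl
    rw [e]
    fun_prop
  have hins1 : ∀ t : ℝ, Continuous (fun x : Fin 2 → ℝ => (Fin.insertNth 1 t x : Fin 3 → ℝ)) := by
    intro t
    have e : (fun x : Fin 2 → ℝ => (Fin.insertNth 1 t x : Fin 3 → ℝ)) =
        fun x => ![x 0, t, x 1] := by
      funext x
      ext i
      fin_cases i <;> rfl
    rw [e]
    fun_prop
  have q0 := face2_le (hcU0.comp (hins0 L)) (hcU0.comp (hins0 (-L))) hL
    (fun y hy => (hS3 L hL y hy).1)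
  have q1 := face2_le (hcU1.comp (hins1 L)) (hcU1.comp (hins1 (-L))) hL
    (fun y hy => (hS3 L hL y hy).2)
  simp only [Function.comp] at q0 q1
  have k5 := neg_le_of_abs_le k4
  have k6 : -(M1 / L ^ 2) ≤ 2 * ((-τ / L + M2 / L ^ 2) * (4 * Real.pi * L)) := by linarith
  have k7 : -(M1 / L ^ 2) * L ^ 2 ≤ 2 * ((-τ / L + M2 / L ^ 2) * (4 * Real.pi * L)) * L ^ 2 :=
    mul_le_mul_of_nonneg_right k6 (by positivity)
  have e1 : -(M1 / L ^ 2) * L ^ 2 = -M1 := by field_simp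
  have e2 : 2 * ((-τ / L + M2 / L ^ 2) * (4 * Real.pi * L)) * L ^ 2 =
      L * (8 * Real.pi * M2 - 8 * Real.pi * τ * L) := by
    field_simp
    ring
  rw [e1, e2] at k7
  have k8 : 8 * Real.pi * M2 - 8 * Real.pi * τ * L < -M1 := by linarith
  have k9 : 8 * Real.pi * M2 - 8 * Real.pi * τ * L < 0 := by linarith
  have k10 : L * (8 * Real.pi * M2 - 8 * Real.pi * τ * L) ≤
      1 * (8 * Real.pi * M2 - 8 * Real.pi * τ * L) :=
    mul_le_mul_of_nonpos_right hL1 k9.le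
  linarith

end analysis

end Pool.Agent.H90.Pencil
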