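import Mathlib
import Pool.Agent.H90.Pencil

/-!
# Consequences of `exists_singular` for real-linear maps into complex vector spaces
-/

set_option linter.unusedSimpArgs false
set_option linter.unusedSectionVars false

namespace Pool.Agent.H90.PencilLin

open Pool.Agent.H90.Pencil

variable {W : Type*} [NormedAddCommGroup W] [NormedSpace ℂ W] [FiniteDimensional ℝ W]
  [Nontrivial W]

/-- Multiplication by `i` as a real-linear continuous map. -/
noncomputable def Jm (W : Type*) [NormedAddCommGroup W] [NormedSpace ℂ W] : W →L[ℝ] W :=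
  (ContinuousLinearMap.lsmul ℝ ℂ : ℂ →L[ℝ] W →L[ℝ] W) Complex.I

omit [FiniteDimensional ℝ W] [Nontrivial W] in
theorem Jm_apply (w : W) : Jm W w = Complex.I • w := rfl

omit [FiniteDimensional ℝ W] [Nontrivial W] in
theorem Jm_sq : Jm W * Jm W = -1 := by
  ext w
  show Complex.I • (Complex.I • w) = -w
  rw [smul_smul, Complex.I_mul_I, neg_one_smul]

theorem exists_trace : ∃ tr : (W →L[ℝ] W) →L[ℝ] ℝ,
    (∀ x y, tr (x * y) = tr (y * x)) ∧ 0 < tr 1 := by
  have : FiniteDimensional ℝ (W →L[ℝ] W) :=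
    LinearEquiv.finiteDimensional (LinearMap.toContinuousLinearMap (𝕜 := ℝ) (E := W) (F' := W))
  refine ⟨LinearMap.toContinuousLinearMap
    ((LinearMap.trace ℝ W) ∘ₗ (ContinuousLinearMap.coeLM ℝ)), ?_, ?_⟩
  · intro x y
    show LinearMap.trace ℝ W ((x * y : W →L[ℝ] W) : W →ₗ[ℝ] W) =
      LinearMap.trace ℝ W ((y * x : W →L[ℝ] W) : W →ₗ[ℝ] W)
    exact LinearMap.trace_mul_comm ℝ (x : W →ₗ[ℝ] W) (y : W →ₗ[ℝ] W)
  · show 0 < LinearMap.trace ℝ W ((1 : W →L[ℝ] W) : W →ₗ[ℝ] W)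
    have : ((1 : W →L[ℝ] W) : W →ₗ[ℝ] W) = 1 := rfl
    rw [this, LinearMap.trace_one]
    exact_mod_cast Module.finrank_pos

/-- For real-linear `B, C`, some nonzero complex combination `x₁ + x₂ B + x₃ C` has a kernel. -/
theorem exists_ker (B C : W →ₗ[ℝ] W) : ∃ (x y z : ℂ) (w : W), (x ≠ 0 ∨ y ≠ 0 ∨ z ≠ 0) ∧ w ≠ 0 ∧
    x • w + y • B w + z • C w = 0 := by
  have : CompleteSpace W := FiniteDimensional.complete ℝ W
  obtain ⟨tr, htr, h1⟩ := exists_trace (W := W)
  set B' : W →L[ℝ] W := LinearMap.toContinuousLinearMap B with hB'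
  set C' : W →L[ℝ] W := LinearMap.toContinuousLinearMap C with hC'
  obtain ⟨y, hy, hns⟩ := exists_singular tr htr h1 Jm_sq B' C'
  have hninj : ¬ Function.Injective (E6 (Jm W) B' C' y : W →L[ℝ] W) := by
    intro hinj
    apply hns
    rw [ContinuousLinearMap.isUnit_iff_bijective]
    refine ⟨hinj, ?_⟩
    exact LinearMap.surjective_of_injective (f := ((E6 (Jm W) B' C' y : W →L[ℝ] W) : W →ₗ[ℝ] W))
      hinj
  have h2 : ∃ w : W, w ≠ 0 ∧ (E6 (Jm W) B' C' y : W →L[ℝ] W) w = 0 := by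
    by_contra hcon
    push Not at hcon
    apply hninj
    rw [injective_iff_map_eq_zero]
    intro w hw
    by_contra hw0
    exact hcon w hw0 hw
  obtain ⟨w, hw0, hw⟩ := h2
  have key : ∀ (a b : ℝ) (v : W), (⟨a, b⟩ : ℂ) • v = a • v + b • (Complex.I • v) := by
    intro a b v
    have : (⟨a, b⟩ : ℂ) = (a : ℂ) + (b : ℂ) * Complex.I := Complex.mk_eq_add_mul_I a b
    rw [this, add_smul, mul_smul]
    simp only [Complex.coe_smul]
  refine ⟨⟨y 0, y 1⟩, ⟨y 2, y 3⟩, ⟨y 4, y 5⟩, w, ?_, hw0, ?_⟩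
  · by_contra hcon
    push Not at hcon
    obtain ⟨g1, g2, g3⟩ := hcon
    apply hy
    have f0 : y 0 = 0 := congrArg Complex.re g1
    have f1 : y 1 = 0 := congrArg Complex.im g1
    have f2 : y 2 = 0 := congrArg Complex.re g2
    have f3 : y 3 = 0 := congrArg Complex.im g2
    have f4 : y 4 = 0 := congrArg Complex.re g3
    have f5 : y 5 = 0 := congrArg Complex.im g3
    ext i
    fin_cases i <;> assumption
  · rw [key (y 0) (y 1), key (y 2) (y 3), key (y 4) (y 5)]
    exact hw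

/-- For real-linear `B, C`, some nonzero combination `w ↦ x w + B (y w) + C (z w)` has a
kernel. -/
theorem exists_ker' (B C : W →ₗ[ℝ] W) : ∃ (x y z : ℂ) (w : W), (x ≠ 0 ∨ y ≠ 0 ∨ z ≠ 0) ∧ w ≠ 0 ∧
    x • w + B (y • w) + C (z • w) = 0 := by
  have : CompleteSpace W := FiniteDimensional.complete ℝ W
  have hfd : FiniteDimensional ℝ (W →L[ℝ] W) :=
    LinearEquiv.finiteDimensional (LinearMap.toContinuousLinearMap (𝕜 := ℝ) (E := W) (F' := W))
  have hfd' : FiniteDimensional ℝ (W →L[ℝ] W)ᵐᵒᵖ :=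
    LinearEquiv.finiteDimensional (MulOpposite.opLinearEquiv ℝ)
  have : CompleteSpace (W →L[ℝ] W)ᵐᵒᵖ := FiniteDimensional.complete ℝ _
  obtain ⟨tr, htr, h1⟩ := exists_trace (W := W)
  let tr' : (W →L[ℝ] W)ᵐᵒᵖ →L[ℝ] ℝ := LinearMap.toContinuousLinearMap
    ((tr : (W →L[ℝ] W) →ₗ[ℝ] ℝ) ∘ₗ
      (MulOpposite.opLinearEquiv (M := (W →L[ℝ] W)) ℝ).symm.toLinearMap)
  have htr' : ∀ x y, tr' (x * y) = tr' (y * x) := by
    intro x y
    show tr (MulOpposite.unop (x * y)) = tr (MulOpposite.unop (y * x))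
    rw [MulOpposite.unop_mul, MulOpposite.unop_mul]
    exact htr _ _
  have h1' : 0 < tr' 1 := h1
  set B' : W →L[ℝ] W := LinearMap.toContinuousLinearMap B with hB'
  set C' : W →L[ℝ] W := LinearMap.toContinuousLinearMap C with hC'
  have hJ' : MulOpposite.op (Jm W) * MulOpposite.op (Jm W) = -1 := by
    rw [← MulOpposite.op_mul, Jm_sq]
    rfl
  obtain ⟨y, hy, hns⟩ := exists_singular tr' htr' h1' hJ' (MulOpposite.op B') (MulOpposite.op C')
  set T : W →L[ℝ] W := MulOpposite.unop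
    (E6 (MulOpposite.op (Jm W)) (MulOpposite.op B') (MulOpposite.op C') y) with hT
  have hTeq : T = (y 0 • 1 + y 1 • Jm W) + B' * (y 2 • 1 + y 3 • Jm W) +
      C' * (y 4 • 1 + y 5 • Jm W) := by
    rw [hT, E6]
    simp only [MulOpposite.unop_add, MulOpposite.unop_mul, MulOpposite.unop_smul,
      MulOpposite.unop_one, MulOpposite.unop_op]
  have hninj : ¬ Function.Injective T := by
    intro hinj
    apply hns
    have hu : IsUnit T := by
      rw [ContinuousLinearMap.isUnit_iff_bijective]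
      exact ⟨hinj, LinearMap.surjective_of_injective (f := (T : W →ₗ[ℝ] W)) hinj⟩
    have := IsUnit.op hu
    rwa [hT, MulOpposite.op_unop] at this
  have h2 : ∃ w : W, w ≠ 0 ∧ T w = 0 := by
    by_contra hcon
    push Not at hcon
    apply hninj
    rw [injective_iff_map_eq_zero]
    intro w hw
    by_contra hw0
    exact hcon w hw0 hw
  obtain ⟨w, hw0, hw⟩ := h2
  have key : ∀ (a b : ℝ) (v : W), (⟨a, b⟩ : ℂ) • v = a • v + b • (Complex.I • v) := by
    intro a b v
    have : (⟨a, b⟩ : ℂ) = (a : ℂ) + (b : ℂ) * Complex.I := Complex.mk_eq_add_mul_I a b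
    rw [this, add_smul, mul_smul]
    simp only [Complex.coe_smul]
  refine ⟨⟨y 0, y 1⟩, ⟨y 2, y 3⟩, ⟨y 4, y 5⟩, w, ?_, hw0, ?_⟩
  · by_contra hcon
    push Not at hcon
    obtain ⟨g1, g2, g3⟩ := hcon
    apply hy
    have f0 : y 0 = 0 := congrArg Complex.re g1
    have f1 : y 1 = 0 := congrArg Complex.im g1
    have f2 : y 2 = 0 := congrArg Complex.re g2
    have f3 : y 3 = 0 := congrArg Complex.im g2
    have f4 : y 4 = 0 := congrArg Complex.re g3
    have f5 : y 5 = 0 := congrArg Complex.im g3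
    ext i
    fin_cases i <;> assumption
  · rw [key (y 0) (y 1), key (y 2) (y 3), key (y 4) (y 5)]
    rw [hTeq] at hw
    exact hw

/-- Post-composition form, for maps from a real space of sufficiently large dimension. -/
theorem exists_comb {X : Type*} [AddCommGroup X] [Module ℝ X] [FiniteDimensional ℝ X]
    (hdim : Module.finrank ℝ W ≤ Module.finrank ℝ X) (T1 T2 T3 : X →ₗ[ℝ] W) :
    ∃ (x y z : ℂ) (v : X), (x ≠ 0 ∨ y ≠ 0 ∨ z ≠ 0) ∧ v ≠ 0 ∧
      x • T1 v + y • T2 v + z • T3 v = 0 := by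
  by_cases hinj : Function.Injective T1
  · have hle : Module.finrank ℝ X ≤ Module.finrank ℝ W := LinearMap.finrank_le_finrank_of_injective hinj
    have heq : Module.finrank ℝ X = Module.finrank ℝ W := le_antisymm hle hdim
    let e : X ≃ₗ[ℝ] W := LinearEquiv.ofInjectiveOfFinrankEq T1 hinj heq
    have he : ∀ v, e v = T1 v := fun v => rfl
    obtain ⟨x, y, z, w, h1, h2, h3⟩ := exists_ker (T2 ∘ₗ (e.symm : W →ₗ[ℝ] X))
      (T3 ∘ₗ (e.symm : W →ₗ[ℝ] X))
    refine ⟨x, y, z, e.symm w, h1, ?_, ?_⟩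
    · intro h
      apply h2
      exact (LinearEquiv.map_eq_zero_iff e.symm).1 h
    · rw [← he, LinearEquiv.apply_symm_apply]
      exact h3
  · have h2 : ∃ v : X, v ≠ 0 ∧ T1 v = 0 := by
      by_contra hcon
      push Not at hcon
      apply hinj
      rw [injective_iff_map_eq_zero]
      intro v hv
      by_contra hv0
      exact hcon v hv0 hv
    obtain ⟨v, hv0, hv⟩ := h2
    exact ⟨1, 0, 0, v, Or.inl one_ne_zero, hv0, by rw [hv]; simp⟩

/-- Pre-composition form, for maps to a real space of sufficiently small dimension. -/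
theorem exists_comb' {Q : Type*} [AddCommGroup Q] [Module ℝ Q] [FiniteDimensional ℝ Q]
    (hdim : Module.finrank ℝ Q ≤ Module.finrank ℝ W) (T1 T2 T3 : W →ₗ[ℝ] Q) :
    ∃ (x y z : ℂ) (w : W), (x ≠ 0 ∨ y ≠ 0 ∨ z ≠ 0) ∧ w ≠ 0 ∧
      T1 (x • w) + T2 (y • w) + T3 (z • w) = 0 := by
  by_cases hinj : Function.Injective T1
  · have hle : Module.finrank ℝ W ≤ Module.finrank ℝ Q := LinearMap.finrank_le_finrank_of_injective hinj
    have heq : Module.finrank ℝ W = Module.finrank ℝ Q := le_antisymm hle hdim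
    let e : W ≃ₗ[ℝ] Q := LinearEquiv.ofInjectiveOfFinrankEq T1 hinj heq
    have he : ∀ v, e v = T1 v := fun v => rfl
    obtain ⟨x, y, z, w, h1, h2, h3⟩ := exists_ker' ((e.symm : Q →ₗ[ℝ] W) ∘ₗ T2)
      ((e.symm : Q →ₗ[ℝ] W) ∘ₗ T3)
    refine ⟨x, y, z, w, h1, h2, ?_⟩
    have h4 := congrArg e h3
    simp only [map_add, LinearMap.comp_apply, LinearEquiv.coe_coe, LinearEquiv.apply_symm_apply,
      map_zero] at h4
    exact h4
  · have h2 : ∃ v : W, v ≠ 0 ∧ T1 v = 0 := by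
      by_contra hcon
      push Not at hcon
      apply hinj
      rw [injective_iff_map_eq_zero]
      intro v hv
      by_contra hv0
      exact hcon v hv0 hv
    obtain ⟨v, hv0, hv⟩ := h2
    exact ⟨1, 0, 0, v, Or.inl one_ne_zero, hv0, by rw [one_smul, hv]; simp⟩

end Pool.Agent.H90.PencilLin
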