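import Mathlib
import Pool.Agent.H90.PencilLin

/-!
# Real subspaces of dimension `2mn` of `M_n(ℂ)` contain matrices with `m`-dimensional kernel
-/

set_option linter.unusedSimpArgs false
set_option linter.unusedSectionVars false

open Matrix Module

namespace Pool.Agent.H90.RankSpace

open Pool.Agent.H90.PencilLin

theorem finrank_vec (n : ℕ) : finrank ℝ (Fin n → ℂ) = 2 * n := by
  rw [Module.finrank_pi_fintype]
  simp [Complex.finrank_real_complex, mul_comm]

/-- First case: `m = k + 1 ≤ n - 2`. -/
theorem case_one {n k : ℕ} (hn : k + 3 ≤ n) (V : Submodule ℝ (Matrix (Fin n) (Fin n) ℂ))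
    (hV : 2 * (k + 1) * n ≤ finrank ℝ V) :
    ∃ X ∈ V, X ≠ 0 ∧ k + 1 ≤ finrank ℂ (LinearMap.ker X.mulVecLin) := by
  have hne : Nonempty (Fin n) := ⟨⟨0, by omega⟩⟩
  let g : V →ₗ[ℝ] (Fin k → Fin n → ℂ) :=
    { toFun := fun X j i => (X : Matrix (Fin n) (Fin n) ℂ) i ⟨j, by omega⟩
      map_add' := fun X Y => rfl
      map_smul' := fun c X => rfl }
  have hcod : finrank ℝ (Fin k → Fin n → ℂ) = k * (2 * n) := by
    rw [Module.finrank_pi_fintype]
    simp [finrank_vec]
  have hK : 2 * n ≤ finrank ℝ (LinearMap.ker g) := by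
    have h1 := LinearMap.finrank_range_add_finrank_ker g
    have h2 : finrank ℝ (LinearMap.range g) ≤ k * (2 * n) := by
      rw [← hcod]
      exact Submodule.finrank_le _
    nlinarith
  let T : Fin n → (LinearMap.ker g →ₗ[ℝ] (Fin n → ℂ)) := fun j =>
    { toFun := fun X i => ((X : V) : Matrix (Fin n) (Fin n) ℂ) i j
      map_add' := fun X Y => rfl
      map_smul' := fun c X => rfl }
  obtain ⟨x, y, z, X, hxyz, hX0, hX⟩ := exists_comb (W := Fin n → ℂ) (X := LinearMap.ker g)
    (by rw [finrank_vec]; exact hK) (T ⟨k, by omega⟩) (T ⟨k + 1, by omega⟩) (T ⟨k + 2, by omega⟩)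
  set M : Matrix (Fin n) (Fin n) ℂ := ((X : V) : Matrix (Fin n) (Fin n) ℂ) with hM
  have hcol : ∀ (i : Fin n) (j : Fin n), j.val < k → M i j = 0 := by
    intro i j hj
    have h := X.2
    rw [LinearMap.mem_ker] at h
    exact congrFun (congrFun h ⟨j, hj⟩) i
  set u : Fin n → ℂ := Pi.single ⟨k, by omega⟩ x + Pi.single ⟨k + 1, by omega⟩ y +
    Pi.single ⟨k + 2, by omega⟩ z with hu
  have hMu : M *ᵥ u = 0 := by
    rw [hu, Matrix.mulVec_add, Matrix.mulVec_add]
    rw [← hX]
    ext i
    simp only [Pi.add_apply, Matrix.mulVec_single, Pi.smul_apply, smul_eq_mul,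
      MulOpposite.smul_eq_mul_unop, MulOpposite.unop_op, Matrix.col_apply]
    show M i ⟨k, _⟩ * x + M i ⟨k + 1, _⟩ * y + M i ⟨k + 2, _⟩ * z =
      x * M i ⟨k, _⟩ + y * M i ⟨k + 1, _⟩ + z * M i ⟨k + 2, _⟩
    ring
  refine ⟨M, (X : V).2, ?_, ?_⟩
  · intro h
    apply hX0
    apply Subtype.ext
    apply Subtype.ext
    exact h
  · let f : ((Fin k → ℂ) × ℂ) →ₗ[ℂ] (Fin n → ℂ) :=
      { toFun := fun c i => if h : i.val < k then c.1 ⟨i, h⟩ else c.2 * u i
        map_add' := by
          intro c d
          ext i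
          simp only [Pi.add_apply, Prod.fst_add, Prod.snd_add]
          split_ifs
          · rfl
          · ring
        map_smul' := by
          intro a c
          ext i
          simp only [Pi.smul_apply, Prod.smul_fst, Prod.smul_snd, smul_eq_mul, RingHom.id_apply]
          split_ifs
          · rfl
          · ring }
    have hf : ∀ c, f c ∈ LinearMap.ker M.mulVecLin := by
      intro c
      rw [LinearMap.mem_ker, Matrix.mulVecLin_apply]
      have : M *ᵥ (f c) = c.2 • (M *ᵥ u) := by
        ext i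
        rw [Pi.smul_apply, Matrix.mulVec, Matrix.mulVec, dotProduct, dotProduct, smul_eq_mul,
          Finset.mul_sum]
        apply Finset.sum_congr rfl
        intro j _
        by_cases hj : j.val < k
        · rw [hcol i j hj]
          ring
        · have : f c j = c.2 * u j := by
            show (if h : j.val < k then c.1 ⟨j, h⟩ else c.2 * u j) = _
            rw [dif_neg hj]
          rw [this]
          ring
      rw [this, hMu, smul_zero]
    have hinj : Function.Injective (f.codRestrict (LinearMap.ker M.mulVecLin) hf) := by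
      rw [injective_iff_map_eq_zero]
      intro c hc
      have hc' : f c = 0 := congrArg Subtype.val hc
      have hval : ∀ i : Fin n, (if h : i.val < k then c.1 ⟨i, h⟩ else c.2 * u i) = 0 :=
        fun i => congrFun hc' i
      have h1 : c.1 = 0 := by
        ext i
        have := hval ⟨i, by omega⟩
        rw [dif_pos i.2] at this
        exact this
      have h2 : c.2 = 0 := by
        by_contra hc2
        have ha := hval ⟨k, by omega⟩
        have hb := hval ⟨k + 1, by omega⟩
        have hd := hval ⟨k + 2, by omega⟩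
        rw [dif_neg (by simp)] at ha hb hd
        have ha' := (mul_eq_zero.1 ha).resolve_left hc2
        have hb' := (mul_eq_zero.1 hb).resolve_left hc2
        have hd' := (mul_eq_zero.1 hd).resolve_left hc2
        rw [hu] at ha' hb' hd'
        simp [Pi.single_apply] at ha' hb' hd'
        rcases hxyz with h | h | h
        · exact h ha'
        · exact h hb'
        · exact h hd'
      exact Prod.ext h1 h2
    have h3 := LinearMap.finrank_le_finrank_of_injective hinj
    rw [Module.finrank_prod] at h3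
    simpa using h3

/-- Second case: `m = n - 1 ≥ 2`. -/
theorem case_two {n : ℕ} (hn : 3 ≤ n) (V : Submodule ℝ (Matrix (Fin n) (Fin n) ℂ))
    (hV : 2 * (n - 1) * n ≤ finrank ℝ V) :
    ∃ X ∈ V, X ≠ 0 ∧ n - 1 ≤ finrank ℂ (LinearMap.ker X.mulVecLin) := by
  have hne : Nonempty (Fin n) := ⟨⟨0, by omega⟩⟩
  have htot : finrank ℝ (Matrix (Fin n) (Fin n) ℂ) = n * (2 * n) := by
    have : finrank ℝ (Matrix (Fin n) (Fin n) ℂ) = finrank ℝ (Fin n → Fin n → ℂ) := rfl
    rw [this, Module.finrank_pi_fintype]
    simp [finrank_vec]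
  have hQ : finrank ℝ (Matrix (Fin n) (Fin n) ℂ ⧸ V) ≤ 2 * n := by
    have h1 := Submodule.finrank_quotient_add_finrank V
    rw [htot] at h1
    obtain ⟨k, rfl⟩ : ∃ k, n = k + 1 := ⟨n - 1, by omega⟩
    simp only [Nat.add_sub_cancel] at hV
    nlinarith
  let T : (Fin n → ℂ) → ((Fin n → ℂ) →ₗ[ℝ] (Matrix (Fin n) (Fin n) ℂ ⧸ V)) := fun a =>
    (Submodule.mkQ V) ∘ₗ
    { toFun := fun w => Matrix.vecMulVec a w
      map_add' := fun v w => Matrix.vecMulVec_add a v w
      map_smul' := fun c w => by
        ext i j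
        simp [Matrix.vecMulVec_apply]
        ring }
  obtain ⟨x, y, z, w, hxyz, hw0, hX⟩ := exists_comb' (W := Fin n → ℂ)
    (Q := Matrix (Fin n) (Fin n) ℂ ⧸ V)
    (by rw [finrank_vec]; exact hQ) (T (Pi.single ⟨0, by omega⟩ 1)) (T (Pi.single ⟨1, by omega⟩ 1))
    (T (Pi.single ⟨2, by omega⟩ 1))
  set u : Fin n → ℂ := Pi.single ⟨0, by omega⟩ x + Pi.single ⟨1, by omega⟩ y +
    Pi.single ⟨2, by omega⟩ z with hu
  have hu0 : u ≠ 0 := by
    intro h
    have ha := congrFun h ⟨0, by omega⟩
    have hb := congrFun h ⟨1, by omega⟩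
    have hd := congrFun h ⟨2, by omega⟩
    rw [hu] at ha hb hd
    simp [Pi.single_apply] at ha hb hd
    rcases hxyz with h | h | h
    · exact h ha
    · exact h hb
    · exact h hd
  have hmem : Matrix.vecMulVec u w ∈ V := by
    rw [← Submodule.Quotient.mk_eq_zero, ← hX]
    show Submodule.Quotient.mk _ = Submodule.Quotient.mk _ + Submodule.Quotient.mk _ +
      Submodule.Quotient.mk _
    rw [← Submodule.Quotient.mk_add, ← Submodule.Quotient.mk_add]
    congr 1
    show Matrix.vecMulVec u w = Matrix.vecMulVec _ _ + Matrix.vecMulVec _ _ + Matrix.vecMulVec _ _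
    ext i j
    simp only [Matrix.add_apply, Matrix.vecMulVec_apply, hu, Pi.add_apply, Pi.smul_apply,
      smul_eq_mul, Pi.single_apply]
    split_ifs <;> ring
  refine ⟨Matrix.vecMulVec u w, hmem, ?_, ?_⟩
  · intro h
    obtain ⟨i, hi⟩ : ∃ i, u i ≠ 0 := by
      by_contra hcon
      push Not at hcon
      exact hu0 (funext hcon)
    obtain ⟨j, hj⟩ : ∃ j, w j ≠ 0 := by
      by_contra hcon
      push Not at hcon
      exact hw0 (funext hcon)
    have := congrFun (congrFun h i) j
    rw [Matrix.vecMulVec_apply] at this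
    exact (mul_ne_zero hi hj) this
  · let φ : (Fin n → ℂ) →ₗ[ℂ] ℂ :=
      { toFun := fun v => w ⬝ᵥ v
        map_add' := fun v v' => dotProduct_add w v v'
        map_smul' := fun c v => by simp [dotProduct_smul] }
    have h1 := LinearMap.finrank_range_add_finrank_ker φ
    have h2 : finrank ℂ (LinearMap.range φ) ≤ 1 := by
      have := Submodule.finrank_le (LinearMap.range φ)
      simpa using this
    have h3 : finrank ℂ (Fin n → ℂ) = n := by simp
    rw [h3] at h1
    have h4 : LinearMap.ker φ ≤ LinearMap.ker (Matrix.vecMulVec u w).mulVecLin := by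
      intro v hv
      rw [LinearMap.mem_ker] at hv ⊢
      rw [Matrix.mulVecLin_apply]
      ext i
      rw [Matrix.mulVec, dotProduct]
      simp only [Matrix.vecMulVec_apply, mul_assoc]
      rw [← Finset.mul_sum]
      have : ∑ j, w j * v j = 0 := hv
      rw [this, mul_zero]
      rfl
    have h5 := Submodule.finrank_mono h4
    omega

/-- **Rank theorem.** If `n ≥ 3` and `1 ≤ m < n`, every real subspace of `M_n(ℂ)` of dimension
at least `2mn` contains a nonzero matrix whose kernel has dimension at least `m`. -/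
theorem exists_low_rank {n m : ℕ} (hn : 3 ≤ n) (hm : 1 ≤ m) (hmn : m < n)
    (V : Submodule ℝ (Matrix (Fin n) (Fin n) ℂ)) (hV : 2 * m * n ≤ finrank ℝ V) :
    ∃ X ∈ V, X ≠ 0 ∧ m ≤ finrank ℂ (LinearMap.ker X.mulVecLin) := by
  by_cases h : m + 2 ≤ n
  · obtain ⟨k, rfl⟩ : ∃ k, m = k + 1 := ⟨m - 1, by omega⟩
    exact case_one (by omega) V hV
  · have : m = n - 1 := by omega
    subst this
    exact case_two hn V hV

end Pool.Agent.H90.RankSpace
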