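import Mathlib

/-!
# An upper bound for the small singular values
-/

open Module InnerProductSpace

namespace Pool.Agent.H90.SingVal

variable {E F : Type*} [NormedAddCommGroup E] [InnerProductSpace ℂ E] [FiniteDimensional ℂ E]
  [NormedAddCommGroup F] [InnerProductSpace ℂ F] [FiniteDimensional ℂ F]

/-- If `T` is `ε`-small on a subspace of dimension at least `m`, then its `m` smallest singular
values are at most `ε`. -/
theorem singularValues_le (T : E →ₗ[ℂ] F) {n m : ℕ} (hn : finrank ℂ E = n) (U : Submodule ℂ E)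
    (hm : m ≤ finrank ℂ U) {ε : ℝ} (hε : 0 ≤ ε) (hU : ∀ u ∈ U, ‖T u‖ ≤ ε * ‖u‖)
    {i : ℕ} (hi : i < m) : T.singularValues (n - 1 - i) ≤ ε := by
  have hmn : m ≤ n := by
    rw [← hn]
    exact hm.trans (Submodule.finrank_le U)
  have hjn : n - 1 - i < n := by omega
  set S := T.isSymmetric_adjoint_comp_self with hS
  set b := S.eigenvectorBasis hn with hb
  -- a vector of `U` orthogonal to the last eigenvectors
  let g : U →ₗ[ℂ] (Fin i → ℂ) :=
    { toFun := fun u k => inner ℂ (b ⟨n - 1 - k, by omega⟩) (u : E)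
      map_add' := fun u v => by
        ext k
        simp [inner_add_right]
      map_smul' := fun c u => by
        ext k
        simp [inner_smul_right] }
  have hg : ∃ u : U, u ≠ 0 ∧ g u = 0 := by
    by_contra hcon
    push Not at hcon
    have hinj : Function.Injective g := by
      rw [injective_iff_map_eq_zero]
      intro u hu
      by_contra hu0
      exact hcon u hu0 hu
    have h := LinearMap.finrank_le_finrank_of_injective hinj
    have h2 : finrank ℂ (Fin i → ℂ) = i := by simp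
    omega
  obtain ⟨u, hu0, hu⟩ := hg
  set w : E := (u : E) with hw
  have hw0 : w ≠ 0 := by
    intro h
    apply hu0
    exact Subtype.ext h
  have horth : ∀ l : Fin n, n - 1 - i < l.val → inner ℂ (b l) w = 0 := by
    intro l hl
    have := congrFun hu ⟨n - 1 - l.val, by omega⟩
    have e : (⟨n - 1 - (n - 1 - l.val), by omega⟩ : Fin n) = l := by
      apply Fin.ext
      show n - 1 - (n - 1 - l.val) = l.val
      omega
    have h' : inner ℂ (b ⟨n - 1 - (n - 1 - l.val), by omega⟩) w = 0 := this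
    rw [e] at h'
    exact h'
  set μ : ℝ := S.eigenvalues hn ⟨n - 1 - i, hjn⟩ with hμ
  -- `‖T w‖² = ∑ λ_l |⟨b_l, w⟩|²`
  have hTw : ‖T w‖ ^ 2 = ∑ l, S.eigenvalues hn l * ‖inner ℂ (b l) w‖ ^ 2 := by
    have h1 : inner ℂ (T w) (T w) = inner ℂ w ((LinearMap.adjoint T ∘ₗ T) w) := by
      rw [LinearMap.comp_apply, LinearMap.adjoint_inner_right]
    have h2 : inner ℂ w ((LinearMap.adjoint T ∘ₗ T) w) =
        ∑ l, inner ℂ w (b l) * inner ℂ (b l) ((LinearMap.adjoint T ∘ₗ T) w) :=
      (b.sum_inner_mul_inner w _).symm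
    have h3 : ∀ l, inner ℂ (b l) ((LinearMap.adjoint T ∘ₗ T) w) =
        (S.eigenvalues hn l : ℂ) * inner ℂ (b l) w := by
      intro l
      rw [← S (b l) w, hb, S.apply_eigenvectorBasis hn l, inner_smul_left]
      simp
    have h4 : (‖T w‖ ^ 2 : ℝ) = (inner ℂ (T w) (T w)).re := by
      rw [inner_self_eq_norm_sq_to_K]
      norm_cast
    rw [h4, h1, h2, Complex.re_sum]
    apply Finset.sum_congr rfl
    intro l _
    rw [h3]
    have h5 : inner ℂ w (b l) * ((S.eigenvalues hn l : ℂ) * inner ℂ (b l) w) =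
        ((S.eigenvalues hn l * ‖inner ℂ (b l) w‖ ^ 2 : ℝ) : ℂ) := by
      rw [← inner_conj_symm w (b l)]
      push_cast
      have : (starRingEnd ℂ) (inner ℂ (b l) w) * inner ℂ (b l) w = (‖inner ℂ (b l) w‖ : ℂ) ^ 2 := by
        rw [mul_comm, Complex.mul_conj, Complex.normSq_eq_norm_sq]
        norm_cast
      linear_combination (S.eigenvalues hn l : ℂ) * this
    rw [h5, Complex.ofReal_re]
  have hlow : μ * ‖w‖ ^ 2 ≤ ‖T w‖ ^ 2 := by
    rw [hTw, ← b.sum_sq_norm_inner_right w, Finset.mul_sum]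
    apply Finset.sum_le_sum
    intro l _
    by_cases hl : n - 1 - i < l.val
    · rw [horth l hl]
      simp
    · apply mul_le_mul_of_nonneg_right _ (by positivity)
      apply S.eigenvalues_antitone hn
      show l.val ≤ n - 1 - i
      omega
  have hup : ‖T w‖ ^ 2 ≤ ε ^ 2 * ‖w‖ ^ 2 := by
    rw [← mul_pow]
    exact pow_le_pow_left₀ (norm_nonneg _) (hU w u.2) 2
  have hwpos : 0 < ‖w‖ ^ 2 := by
    have := norm_pos_iff.2 hw0
    positivity
  have hμε : μ ≤ ε ^ 2 := le_of_mul_le_mul_right (hlow.trans hup) hwpos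
  rw [T.singularValues_of_lt hn hjn]
  calc √μ ≤ √(ε ^ 2) := Real.sqrt_le_sqrt hμε
    _ = ε := Real.sqrt_sq hε

end Pool.Agent.H90.SingVal
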